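import Mathlib

/-!
# Project rb (MP_24e2e7_nt): Rubin's integrality at 2. Block 1: the functional equation of `ζ_K`

RULES. Row `rb:XX` is a file `Pool/Agent/<seat>/RB/XX.lean`, namespace `Pool.Agent.RB`, with the theorem
`XX (hYY : YY_stmt) ... : XX_stmt` (hypotheses: only the rows named in the docstring, in this order); auxiliary lemmas have the
prefix `XX_`. No `convert`, `congr!`, `native_decide`, no double quotes. The docstring contains the proof.

The final result of block 1 is `FE_stmt`: the functional equation of the Dedekind zeta function of a number field.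

NOTATION. `mult v` is 1 for a real and 2 for a complex place. For `t : InfinitePlace K → ℝ` (positive) and a fractional
ideal `J`, `th K J t = ∑_{x ∈ J} exp (-π ∑_v mult v t_v |x|_v²)`. For `z ∈ ℝ^r` (`logSpace K`), `tau K z` is the point of the norm one
torus `{t : ∏ t_v ^ mult v = 1}` with `mult v / 2 * log t_v = z_v` for `v ≠ w₀`; for a unit `u`,
`tau K (logEmbedding u) v = |u|_v²`. `FD K` is a fundamental domain of the unit lattice, `fJ K J y = ∫_{z ∈ FD} th K J (y tau z)`.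
Useful: `Pool/Agent/helper20/BRZ/POI.lean` (Poisson summation for lattices; needs `helper92/BRZ/POA.lean`),
`Pool/Agent/helper37/HexB.lean` (`exists_gaussian`: the Gaussian is a Schwartz function); these files may be imported.
-/

set_option autoImplicit false

namespace Pool.Agent.RB

open NumberField NumberField.InfinitePlace NumberField.Units NumberField.Units.dirichletUnitTheorem
open MeasureTheory Filter Topology Module
open scoped nonZeroDivisors Real Classical

/-! ### Definitions -/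

section defs

variable (K : Type) [Field K] [NumberField K]

/-- fractional ideals of the ring of integers -/
abbrev FI : Type := FractionalIdeal (𝓞 K)⁰ K

/-- the quadratic form `∑_v mult v t_v |x|_v²` -/
noncomputable def qf (t : InfinitePlace K → ℝ) (x : K) : ℝ :=
  ∑ v : InfinitePlace K, (v.mult : ℝ) * t v * v x ^ 2

/-- the theta series of a subset of `K` -/
noncomputable def th (J : Set K) (t : InfinitePlace K → ℝ) : ℝ :=
  ∑' x : J, Real.exp (-π * qf K t x)

/-- the parametrisation of the norm one torus -/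
noncomputable def tau (z : logSpace K) (v : InfinitePlace K) : ℝ :=
  if h : v = w₀ then Real.exp (-(2 / v.mult) * ∑ u, z u) else Real.exp (2 / v.mult * z ⟨v, h⟩)

/-- a fundamental domain of the unit lattice -/
noncomputable def FD : Set (logSpace K) :=
  ZSpan.fundamentalDomain ((basisUnitLattice K).ofZLatticeBasis ℝ (unitLattice K))

/-- the volume of the fundamental domain -/
noncomputable def vD : ℝ := (volume (FD K)).toReal

/-- the averaged theta function -/
noncomputable def fJ (J : Set K) (y : ℝ) : ℝ := ∫ z in FD K, th K J (fun v => y * tau K z v)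

/-- the dual ideal with respect to the trace -/
noncomputable def du (J : FI K) : FI K := FractionalIdeal.dual ℤ ℚ J

/-- the Gamma factor -/
noncomputable def Ga (s : ℂ) : ℂ :=
  Complex.Gammaℝ s ^ nrRealPlaces K * Complex.Gammaℂ s ^ nrComplexPlaces K

/-- the integral ideals `I ≠ 0` for which `I J` is principal -/
def IJ (J : FI K) : Set (Ideal (𝓞 K)) :=
  {I | I ≠ ⊥ ∧ ∃ x : K, x ≠ 0 ∧ (I : FI K) * J = FractionalIdeal.spanSingleton (𝓞 K)⁰ x}

end defs

/-! ### Theta series -/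

/-- ROW rb:THB (theta inversion for a basis). `b` a basis of `K` over `ℚ`, `b'` its dual basis for the trace form. Proof. `N = [K : ℚ]`.
Coordinates `Φ_t : K → ℝ^N` (index set: real places and `{complex places} × {0, 1}`, reindexed): `√t_v σ_v(x)` for real `v`,
`√(2 t_v) Re σ_v(x)`, `√(2 t_v) Im σ_v(x)` for complex `v`, so `‖Φ_t x‖² = qf K t x`. `A : EE N ≃ EE N`, `A e_i = Φ_t (b_i)`. Gaussian `f = exp (-π ‖·‖²)`
(`exists_gaussian`), `𝓕 f = f` (`fourier_gaussian_innerProductSpace`). POI: `∑ f (A n) = |det A|⁻¹ ∑ f (A^{-T} n)`. With `Φ'_t(y)` = the same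
coordinates of the complex conjugates `conj σ_v(y)`: `⟪Φ_t x, Φ'_{1/t} y⟫ = ∑_v mult v Re (σ_v(x y)) = Tr (x y)`, so `A^{-T} e_j = Φ'_{1/t}(b'_j)` and
`‖A^{-T} n‖² = qf K (1/t) (∑ n_j b'_j)`. `|det A| = ∏ t_v^(mult v / 2) |det A_1|`, and `|det A_1|² = |disc b|`: the matrix `(σ(b_j))_σ` (all embeddings)
is a unitary matrix times `A_1` (`(σ, conj σ) = 2^{-1/2} [[1, i], [1, -i]] (√2 Re, √2 Im)`), `Algebra.discr_eq_det_embeddingsMatrixReindex_pow_two`
(or use `mixedEmbedding.det_matrixToStdBasis` and the like). Both sides are sums over `ℤ^N`. -/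
def THB_stmt : Prop := ∀ (K : Type) [Field K] [NumberField K] (b : Basis (Fin (finrank ℚ K)) ℚ K)
  (t : InfinitePlace K → ℝ), (∀ v, 0 < t v) →
  Summable (fun x : (Submodule.span ℤ (Set.range b) : Submodule ℤ K) => Real.exp (-π * qf K t x)) ∧
  th K (Submodule.span ℤ (Set.range b) : Submodule ℤ K) t =
    (Real.sqrt |((Algebra.discr ℚ b : ℚ) : ℝ)|)⁻¹ * (∏ v : InfinitePlace K, (t v) ^ (-(v.mult : ℝ) / 2)) *
      th K (Submodule.span ℤ (Set.range
        ((Algebra.traceForm ℚ K).dualBasis (traceForm_nondegenerate ℚ K) b)) : Submodule ℤ K)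
        (fun v => (t v)⁻¹)

/-- ROW rb:THI (from THB; theta inversion for ideals). A nonzero fractional ideal has a `ℤ`-basis `b` which is a `ℚ`-basis of `K` (Mathlib
`NumberField.fractionalIdealBasis`, `NumberField.basisOfFractionalIdeal`), `|disc b| = |discr K| N(J)²` (`FractionalIdeal.abs_det_basis_change`, `Algebra.discr_of_matrix_mulVec`
or the like), and the dual lattice is `du K J` (`FractionalIdeal.coe_dual`, `Submodule.traceDual`, `LinearMap.BilinForm.dualSubmodule_span_of_basis`). -/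
def THI_stmt : Prop := ∀ (K : Type) [Field K] [NumberField K] (J : FI K), J ≠ 0 →
  ∀ t : InfinitePlace K → ℝ, (∀ v, 0 < t v) →
  Summable (fun x : ((J : Submodule (𝓞 K) K) : Set K) => Real.exp (-π * qf K t x)) ∧
  th K (J : Submodule (𝓞 K) K) t =
    (Real.sqrt |(discr K : ℝ)| * (FractionalIdeal.absNorm J : ℝ))⁻¹ *
      (∏ v : InfinitePlace K, (t v) ^ (-(v.mult : ℝ) / 2)) *
      th K (du K J : Submodule (𝓞 K) K) (fun v => (t v)⁻¹)

/-- ROW rb:DUA (the dual ideal). `FractionalIdeal.dual_ne_zero_iff`, `dual_dual`, `dual_eq_mul_inv`, `NumberField.absNorm_differentIdeal`,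
`coeIdeal_differentIdeal`. -/
def DUA_stmt : Prop := ∀ (K : Type) [Field K] [NumberField K] (J : FI K), J ≠ 0 →
  du K J ≠ 0 ∧ du K (du K J) = J ∧ du K J = du K 1 * J⁻¹ ∧
  (FractionalIdeal.absNorm (du K J) : ℝ) * ((FractionalIdeal.absNorm J : ℝ) * |(discr K : ℝ)|) = 1

/-- ROW rb:THU (units act). `x ↦ u x` is a bijection of `J`, `|u x|_v = |u|_v |x|_v`. -/
def THU_stmt : Prop := ∀ (K : Type) [Field K] [NumberField K] (J : FI K) (u : (𝓞 K)ˣ)
  (t : InfinitePlace K → ℝ),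
  th K (J : Submodule (𝓞 K) K) (fun v => v (u : K) ^ 2 * t v) = th K (J : Submodule (𝓞 K) K) t

/-- ROW rb:THD (from THI; decay and continuity). There is `c₀ > 0` with `∑_v mult v |x|_v² ≥ c₀` for all `0 ≠ x ∈ J` (`J` is discrete in `K ⊗ ℝ`; or: arithmetic-geometric
mean, `≥ N |N x|^(2/N) ≥ N N(J)^(2/N)`). If all `t_v ≥ s ≥ a` then `qf K t x ≥ (s - a) c₀ + qf K a x` for `x ≠ 0`, so
`0 ≤ th - 1 ≤ exp (-π (s - a) c₀) th K J a`. Continuity: locally uniform convergence (dominated by the series at a smaller constant `t`). -/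
def THD_stmt : Prop := ∀ (K : Type) [Field K] [NumberField K] (J : FI K), J ≠ 0 →
  (∀ a : ℝ, 0 < a → ∃ C c : ℝ, 0 < c ∧ ∀ (s : ℝ) (t : InfinitePlace K → ℝ), a ≤ s → (∀ v, s ≤ t v) →
    1 ≤ th K (J : Submodule (𝓞 K) K) t ∧ th K (J : Submodule (𝓞 K) K) t - 1 ≤ C * Real.exp (-c * s)) ∧
  ContinuousOn (fun t : InfinitePlace K → ℝ => th K (J : Submodule (𝓞 K) K) t) {t | ∀ v, 0 < t v}

/-! ### The torus -/

/-- ROW rb:TAU. Elementary; for the unit use `sum_logEmbedding_component`. -/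
def TAU_stmt : Prop := ∀ (K : Type) [Field K] [NumberField K],
  (∀ (z : logSpace K) (v : InfinitePlace K), 0 < tau K z v) ∧
  (∀ (z z' : logSpace K) (v : InfinitePlace K), tau K (z + z') v = tau K z v * tau K z' v) ∧
  (∀ (z : logSpace K) (v : InfinitePlace K), tau K (-z) v = (tau K z v)⁻¹) ∧
  (∀ (u : (𝓞 K)ˣ) (v : InfinitePlace K), tau K (logEmbedding K (Additive.ofMul u)) v = v (u : K) ^ 2) ∧
  (∀ z : logSpace K, ∏ v : InfinitePlace K, tau K z v ^ v.mult = 1) ∧
  Continuous (fun z : logSpace K => tau K z)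

/-- ROW rb:FDX (the fundamental domain). `ZSpan.isAddFundamentalDomain`, `ZSpan.fundamentalDomain_isBounded`, `ZSpan.fundamentalDomain_measurableSet`,
`Module.Basis.ofZLatticeBasis_span`. The reflection: `-FD` is also a fundamental domain, `IsAddFundamentalDomain.setIntegral_eq`. The last claim:
`IsAddFundamentalDomain.integral_eq_tsum'` and the like. -/
def FDX_stmt : Prop := ∀ (K : Type) [Field K] [NumberField K],
  IsAddFundamentalDomain (unitLattice K) (FD K) volume ∧ MeasurableSet (FD K) ∧ Bornology.IsBounded (FD K) ∧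
  0 < vD K ∧ volume (FD K) < ⊤ ∧
  (∀ g : logSpace K → ℝ, (∀ (l : unitLattice K) (z : logSpace K), g ((l : logSpace K) + z) = g z) →
    ∫ z in FD K, g (-z) = ∫ z in FD K, g z) ∧
  ∀ g : logSpace K → ℂ, Integrable g → Summable (fun l : unitLattice K => ∫ z in FD K, g ((l : logSpace K) + z)) ∧
    ∑' l : unitLattice K, ∫ z in FD K, g ((l : logSpace K) + z) = ∫ z, g z

/-- ROW rb:FJE (from THI, THU, TAU, FDX; functional equation of `fJ`). With `t_v = y⁻¹ tau z v`: `th K J t = (√|d| N(J))⁻¹ y^(N/2) th K (du J) (y tau (-z))` (`∏ tau^mult = 1`,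
`∑ mult v = N`: `InfinitePlace.sum_mult_eq`), and the reflection of FDX for the function `z ↦ th K (du J) (y tau z)`, invariant under the unit lattice by THU and TAU. -/
def FJE_stmt : Prop := ∀ (K : Type) [Field K] [NumberField K] (J : FI K), J ≠ 0 → ∀ y : ℝ, 0 < y →
  fJ K (J : Submodule (𝓞 K) K) (1 / y) = (Real.sqrt |(discr K : ℝ)| * (FractionalIdeal.absNorm J : ℝ))⁻¹ *
    y ^ ((finrank ℚ K : ℝ) / 2) * fJ K (du K J : Submodule (𝓞 K) K) y

/-- ROW rb:FJD (from THD, TAU, FDX; decay and continuity of `fJ`). `tau` is bounded below by some `κ > 0` on the bounded set `FD`; THD with `s = κ y`. Continuity on `(0, ∞)`: dominated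
convergence (`th` is decreasing in `t`, so bounded on compact sets). -/
def FJD_stmt : Prop := ∀ (K : Type) [Field K] [NumberField K] (J : FI K), J ≠ 0 →
  (∃ C c : ℝ, 0 < c ∧ ∀ y : ℝ, 1 ≤ y → |fJ K (J : Submodule (𝓞 K) K) y - vD K| ≤ C * Real.exp (-c * y)) ∧
  ContinuousOn (fJ K (J : Submodule (𝓞 K) K)) (Set.Ioi 0)

/-- ROW rb:WFE (from DUA, FJE, FJD; analytic continuation). `WeakFEPair` (Mathlib `NumberTheory/LSeries/AbstractFuncEq.lean`) with `E = ℂ`, `f = fJ J`, `g = fJ (du J)`, `k = N/2`,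
`ε = (√|d| N(J))⁻¹`, `f₀ = g₀ = vD K`; `Λ J s := P_J.Λ (N s / 2)`. `hasMellin` gives the formula for `Re s > 1`. `functional_equation`:
`P_J.Λ (k - s) = ε P_J.symm.Λ s`; `P_J.symm.Λ` and `P_{du J}.Λ` are both analytic outside `0, k` and equal (the Mellin transform of `fJ (du J) - vD`) for `Re s > k`, so equal
(identity theorem on the connected set `ℂ \ {0, k}`). -/
def WFE_stmt : Prop := ∀ (K : Type) [Field K] [NumberField K], ∃ Λ : FI K → ℂ → ℂ, ∀ J : FI K, J ≠ 0 →
  DifferentiableOn ℂ (Λ J) {0, 1}ᶜ ∧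
  (∀ s : ℂ, 1 < s.re →
    IntegrableOn (fun y : ℝ => ((fJ K (J : Submodule (𝓞 K) K) y - vD K : ℝ) : ℂ) *
      (y : ℂ) ^ ((finrank ℚ K : ℂ) * s / 2 - 1)) (Set.Ioi 0) ∧
    Λ J s = ∫ y in Set.Ioi (0 : ℝ), ((fJ K (J : Submodule (𝓞 K) K) y - vD K : ℝ) : ℂ) *
      (y : ℂ) ^ ((finrank ℚ K : ℂ) * s / 2 - 1)) ∧
  ∀ s : ℂ, s ≠ 0 → s ≠ 1 → Λ J (1 - s) =
    (((Real.sqrt |(discr K : ℝ)| * (FractionalIdeal.absNorm J : ℝ))⁻¹ : ℝ) : ℂ) * Λ (du K J) s

/-! ### The Mellin transform -/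

/-- ROW rb:MEL (Mellin transform of one exponential). The constant `c > 0` depends only on `K`. Proof. The linear map `(log y, z) ↦ (log (y tau z v))_v` from `ℝ × logSpace` to `ℝ^{places}` is bijective: it is
`(η, z) ↦ (η + 2 z_v / mult v (v ≠ w₀), η - (2 / mult w₀) ∑ z)`, `c = 1/|det|` up to the powers of 2 from `Gammaℂ`. After the substitution `l = log (y tau z)` the integral is
`∏_v ∫_ℝ exp (-π mult v e^(l_v) a_v²) e^(l_v mult v s / 2) dl_v`, since `y^(N s/2) = ∏ (y tau z v)^(mult v s/2)` by `∏ tau^mult = 1`; each factor is `Γ(mult v s/2) (π mult v)^(-mult v s/2) a_v^(-mult v s)`: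
`Gammaℝ s a^(-s)` for real `v`, `Γ(s) (2π)^(-s) a^(-2s) = Gammaℂ s / 2 * a^(-2 s)` for complex `v`. -/
def MEL_stmt : Prop := ∀ (K : Type) [Field K] [NumberField K], ∃ c : ℝ, 0 < c ∧
  ∀ (a : InfinitePlace K → ℝ), (∀ v, 0 < a v) → ∀ s : ℂ, 0 < s.re →
  Integrable (fun p : ℝ × logSpace K => ((Real.exp (-π * ∑ v : InfinitePlace K,
      (v.mult : ℝ) * (p.1 * tau K p.2 v) * a v ^ 2) : ℝ) : ℂ) *
      (p.1 : ℂ) ^ ((finrank ℚ K : ℂ) * s / 2 - 1)) ((volume.restrict (Set.Ioi 0)).prod volume) ∧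
  ∫ y in Set.Ioi (0 : ℝ), (∫ z : logSpace K, ((Real.exp (-π * ∑ v : InfinitePlace K,
      (v.mult : ℝ) * (y * tau K z v) * a v ^ 2) : ℝ) : ℂ)) * (y : ℂ) ^ ((finrank ℚ K : ℂ) * s / 2 - 1)
    = (c : ℂ) * Ga K s * ((∏ v : InfinitePlace K, a v ^ v.mult : ℝ) : ℂ) ^ (-s)

/-- ROW rb:GEN (generators). The elements `x ≠ 0` of `J` correspond to pairs: the ideal `I ∈ IJ J` with `(x) = I J` (`I = x J⁻¹` is integral as `x ∈ J`), and a unit (after the choice of
a generator `g I` of `I J`): `x = u g`. `|N g| = N(I) N(J)`, `|N g| = ∏ |g|_v^mult` (`InfinitePlace.prod_eq_abs_norm`). -/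
def GEN_stmt : Prop := ∀ (K : Type) [Field K] [NumberField K] (J : FI K), J ≠ 0 →
  ∃ (g : IJ K J → K) (e : {x : K // x ∈ (J : Submodule (𝓞 K) K) ∧ x ≠ 0} ≃ IJ K J × (𝓞 K)ˣ),
    (∀ x : {x : K // x ∈ (J : Submodule (𝓞 K) K) ∧ x ≠ 0}, (x : K) = ((e x).2 : K) * g (e x).1) ∧ (∀ I : IJ K J, g I ≠ 0) ∧
    ∀ I : IJ K J, ∏ v : InfinitePlace K, v (g I) ^ v.mult =
      (Ideal.absNorm (I : Ideal (𝓞 K)) : ℝ) * (FractionalIdeal.absNorm J : ℝ)

/-- ROW rb:DZS (the Dedekind zeta function as a sum over ideals). The number of ideals of norm `≤ x` is `O(x)` (`Ideal.tendsto_norm_le_div_atTop`), so `∑ N(I)^(-σ)` converges for `σ > 1`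
(`LSeriesSummable_of_sum_norm_bigO` or the like), and the `LSeries` is obtained by grouping the ideals of the same norm (finitely many: `Ideal.finite_setOf_absNorm_eq`). -/
def DZS_stmt : Prop := ∀ (K : Type) [Field K] [NumberField K] (s : ℂ), 1 < s.re →
  Summable (fun I : {I : Ideal (𝓞 K) // I ≠ ⊥} => ((Ideal.absNorm (I : Ideal (𝓞 K)) : ℕ) : ℂ) ^ (-s)) ∧
  ∑' I : {I : Ideal (𝓞 K) // I ≠ ⊥}, ((Ideal.absNorm (I : Ideal (𝓞 K)) : ℕ) : ℂ) ^ (-s) = dedekindZeta K s

/-- ROW rb:UNF (from THI, TAU, FDX, MEL, GEN, DZS; unfolding). Proof. `fJ J y - vD = ∫_{FD} ∑_{x ≠ 0} exp (-π qf (y tau z) x)`. By GEN the sum over `x ≠ 0` is a sum over `I ∈ IJ J` and `u` a unit, and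
`qf (y tau z) (u g) = qf (y tau (z + log u)) g` (TAU). Sum over `u` = `w` (the number of roots of unity, `torsionOrder K`) times the sum over the unit lattice (`logEmbedding_ker`,
`logEmbedding` is onto `unitLattice`), so by FDX `∑_u ∫_FD = w ∫_{logSpace}`. MEL with `a_v = |g I|_v`; all sums and integrals may be exchanged: first do this for real `s = σ > 1`, where everything is `≥ 0`
(Tonelli; convergence by DZS), then for complex `s` by domination (`|y^(N s/2 - 1)| = y^(N σ/2 - 1)`). -/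
def UNF_stmt : Prop := ∀ (K : Type) [Field K] [NumberField K], ∃ c : ℝ, 0 < c ∧ ∀ J : FI K, J ≠ 0 →
  ∀ s : ℂ, 1 < s.re →
  ∫ y in Set.Ioi (0 : ℝ), ((fJ K (J : Submodule (𝓞 K) K) y - vD K : ℝ) : ℂ) *
      (y : ℂ) ^ ((finrank ℚ K : ℂ) * s / 2 - 1) =
    (c : ℂ) * Ga K s * ((FractionalIdeal.absNorm J : ℝ) : ℂ) ^ (-s) *
      ∑' I : IJ K J, ((Ideal.absNorm (I : Ideal (𝓞 K)) : ℕ) : ℂ) ^ (-s)

/-- ROW rb:CLS (from DUA, DZS; sum over the classes). Choose for every class `C` a fractional ideal `R C` of class `C` (inverse); the sets `IJ K (R C)` partition the nonzero integral ideals. The same for the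
duals `du K (R C)`, whose classes are `[du 1] C⁻¹` and again run over all classes. -/
def CLS_stmt : Prop := ∀ (K : Type) [Field K] [NumberField K], ∃ R : ClassGroup (𝓞 K) → FI K,
  (∀ C, R C ≠ 0) ∧ (∀ s : ℂ, 1 < s.re →
    (∑ C, ∑' I : IJ K (R C), ((Ideal.absNorm (I : Ideal (𝓞 K)) : ℕ) : ℂ) ^ (-s)) = dedekindZeta K s ∧
    (∑ C, ∑' I : IJ K (du K (R C)), ((Ideal.absNorm (I : Ideal (𝓞 K)) : ℕ) : ℂ) ^ (-s)) = dedekindZeta K s)

/-- ROW rb:FE (from DUA, WFE, UNF, CLS; the functional equation). Proof. `Z s = ∑_C N(R C)^s Λ (R C) s / c` and `Z' s = ∑_C N(du (R C))^s Λ (du (R C)) s / c` are analytic on `ℂ \ {0, 1}` and both equal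
`Ga K s ζ_K(s)` for `Re s > 1` (UNF, CLS), so `Z = Z'`. WFE: `N(J)^(1-s) Λ J (1-s) = N(J)^(1-s) (√|d| N(J))⁻¹ Λ (du J) s = |d|^(s - 1/2) N(du J)^s Λ (du J) s` (DUA: `N(J)⁻¹ = N(du J) |d|`). Put
`L s = |d|^(s/2) Z s`. -/
def FE_stmt : Prop := ∀ (K : Type) [Field K] [NumberField K], ∃ L : ℂ → ℂ, DifferentiableOn ℂ L {0, 1}ᶜ ∧
  (∀ s : ℂ, s ≠ 0 → s ≠ 1 → L (1 - s) = L s) ∧
  ∀ s : ℂ, 1 < s.re → L s = ((|(discr K : ℝ)| : ℝ) : ℂ) ^ (s / 2) * Ga K s * dedekindZeta K s

end Pool.Agent.RB
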