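import Pool.Agent.helper91.RB.Spec2

/-!
# Project rb (MP_24e2e7_nt). Block 3: divisors, ambiguous classes, and the index of the unit lattice

RULES as in `Spec1.lean`. `K/k` is a quadratic extension of number fields, `c : K ≃+* K` the nontrivial automorphism fixing `k`
(it is written as a ring automorphism; `AlgEquiv.ofRingEquiv` makes it a `k`-automorphism, so that `TYP_stmt` applies). `Dv K` is the group of divisors,
`Pr K` the principal divisors, `Inv c` the `c`-invariant divisors. The results of the block are `AMB_stmt` (ambiguous class number formula) and `IDX_stmt`.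
-/

set_option autoImplicit false

namespace Pool.Agent.RB

open NumberField IsDedekindDomain Module
open scoped nonZeroDivisors Real Classical

section defs

theorem ord_one {K : Type} [Field K] [NumberField K] (P : HOS K) : ord P (1 : K) = 0 := by
  simp [ord]

theorem ord_mul {K : Type} [Field K] [NumberField K] (P : HOS K) {x y : K} (hx : x ≠ 0) (hy : y ≠ 0) :
    ord P (x * y) = ord P x + ord P y := by
  have h1 : P.valuation K x ≠ 0 := (Valuation.ne_zero_iff _).mpr hx
  have h2 : P.valuation K y ≠ 0 := (Valuation.ne_zero_iff _).mpr hy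
  rw [ord, ord, ord, map_mul, WithZero.log_mul h1 h2]
  ring

theorem ord_inv {K : Type} [Field K] [NumberField K] (P : HOS K) (x : K) :
    ord P x⁻¹ = - ord P x := by
  rw [ord, ord, map_inv₀, WithZero.log_inv]

variable (K : Type) [Field K] [NumberField K]

/-- divisors of `K` -/
abbrev Dv : Type := HOS K →₀ ℤ

/-- principal divisors -/
def Pr : AddSubgroup (Dv K) where
  carrier := {D | ∃ x : K, x ≠ 0 ∧ ∀ P, D P = ord P x}
  zero_mem' := ⟨1, one_ne_zero, fun P => by simp [ord_one]⟩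
  add_mem' := by
    rintro a b ⟨x, hx, h1⟩ ⟨y, hy, h2⟩
    exact ⟨x * y, mul_ne_zero hx hy, fun P => by rw [Finsupp.add_apply, h1, h2, ord_mul P hx hy]⟩
  neg_mem' := by
    rintro a ⟨x, hx, h1⟩
    exact ⟨x⁻¹, inv_ne_zero hx, fun P => by rw [Finsupp.neg_apply, h1, ord_inv]⟩

variable {K}

/-- divisors invariant under `c` -/
def Inv (c : K ≃+* K) : AddSubgroup (Dv K) where
  carrier := {D | ∀ P, D (act c P) = D P}
  zero_mem' := fun P => rfl
  add_mem' := by
    intro a b ha hb P
    rw [Finsupp.add_apply, Finsupp.add_apply, ha P, hb P]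
  neg_mem' := by
    intro a ha P
    rw [Finsupp.neg_apply, Finsupp.neg_apply, ha P]

/-- divisors supported in `W` and anti-invariant under `c` -/
def DV (c : K ≃+* K) (W : Set (HOS K)) : AddSubgroup (Dv K) where
  carrier := {D | (∀ P, P ∉ W → D P = 0) ∧ ∀ P, D (act c P) = - D P}
  zero_mem' := ⟨fun P _ => rfl, fun P => by simp⟩
  add_mem' := by
    rintro a b ⟨h1, h2⟩ ⟨h3, h4⟩
    exact ⟨fun P hP => by rw [Finsupp.add_apply, h1 P hP, h3 P hP, add_zero], fun P => by
      rw [Finsupp.add_apply, Finsupp.add_apply, h2, h4, neg_add]⟩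
  neg_mem' := by
    rintro a ⟨h1, h2⟩
    exact ⟨fun P hP => by rw [Finsupp.neg_apply, h1 P hP, neg_zero], fun P => by
      rw [Finsupp.neg_apply, Finsupp.neg_apply, h2]⟩

variable (K)

/-- divisors which come from `k` (`k → K` quadratic) -/
def Ik (k : Type) [Field k] [NumberField k] [Algebra k K] : AddSubgroup (Dv K) where
  carrier := {D | ∃ E : Dv k, ∀ P : HOS K,
    D P = (if ty K (P.under (𝓞 k)) = 0 then 2 else 1) * E (P.under (𝓞 k))}
  zero_mem' := ⟨0, fun P => by simp⟩
  add_mem' := by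
    rintro a b ⟨E, h1⟩ ⟨E', h2⟩
    exact ⟨E + E', fun P => by rw [Finsupp.add_apply, h1, h2, Finsupp.add_apply, mul_add]⟩
  neg_mem' := by
    rintro a ⟨E, h1⟩
    exact ⟨-E, fun P => by rw [Finsupp.neg_apply, h1, Finsupp.neg_apply, mul_neg]⟩

/-- principal divisors of elements of `k` -/
def Pk (k : Type) [Field k] [NumberField k] [Algebra k K] : AddSubgroup (Dv K) where
  carrier := {D | ∃ x : k, x ≠ 0 ∧ ∀ P, D P = ord P (algebraMap k K x)}
  zero_mem' := ⟨1, one_ne_zero, fun P => by simp [ord_one]⟩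
  add_mem' := by
    rintro a b ⟨x, hx, h1⟩ ⟨y, hy, h2⟩
    exact ⟨x * y, mul_ne_zero hx hy, fun P => by
      rw [Finsupp.add_apply, h1, h2, map_mul,
        ord_mul P ((map_ne_zero _).mpr hx) ((map_ne_zero _).mpr hy)]⟩
  neg_mem' := by
    rintro a ⟨x, hx, h1⟩
    exact ⟨x⁻¹, inv_ne_zero hx, fun P => by rw [Finsupp.neg_apply, h1, map_inv₀, ord_inv]⟩

variable {K}

/-- elements `x` with `x c(x) = 1`, of order 0 outside `W`, and `x ≡ 1` modulo all primes in `T` (primes of `K`) -/
def Ml (c : K ≃+* K) (W T : Set (HOS K)) : Subgroup Kˣ where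
  carrier := {x | (x : K) * c x = 1 ∧ (∀ P, P ∉ W → ord P (x : K) = 0) ∧
    ∀ P ∈ T, P.valuation K ((x : K) - 1) < 1}
  one_mem' := ⟨by simp, fun P _ => by simp [ord_one], fun P _ => by simp⟩
  mul_mem' := by
    rintro a b ⟨h1, h2, h3⟩ ⟨h4, h5, h6⟩
    refine ⟨?_, fun P hP => ?_, fun P hP => ?_⟩
    · rw [Units.val_mul, map_mul, mul_mul_mul_comm, h1, h4, mul_one]
    · rw [Units.val_mul, ord_mul P a.ne_zero b.ne_zero, h2 P hP, h5 P hP, add_zero]
    · have h7 : P.valuation K (b : K) ≤ 1 := by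
        have : (b : K) = ((b : K) - 1) + 1 := by ring
        rw [this]
        refine (Valuation.map_add _ _ _).trans (max_le (h6 P hP).le (by simp))
      have h8 : ((a * b : Kˣ) : K) - 1 = ((a : K) - 1) * b + ((b : K) - 1) := by
        rw [Units.val_mul]; ring
      rw [h8]
      refine (Valuation.map_add _ _ _).trans_lt (max_lt ?_ (h6 P hP))
      rw [map_mul]
      exact mul_lt_one_of_lt_of_le (h3 P hP) h7
  inv_mem' := by
    rintro a ⟨h1, h2, h3⟩
    refine ⟨?_, fun P hP => ?_, fun P hP => ?_⟩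
    · have : (a : K) * c a = 1 := h1
      rw [Units.val_inv_eq_inv_val, map_inv₀, ← mul_inv, this, inv_one]
    · rw [Units.val_inv_eq_inv_val, ord_inv, h2 P hP, neg_zero]
    · have h4 : P.valuation K (a : K) = 1 := by
        have h5 : (a : K) = 1 + ((a : K) - 1) := by ring
        rw [h5]
        refine (Valuation.map_add_eq_of_lt_left _ ?_).trans (by simp)
        rw [map_one]; exact h3 P hP
      have h8 : ((a⁻¹ : Kˣ) : K) - 1 = (1 - (a : K)) * (a : K)⁻¹ := by
        rw [Units.val_inv_eq_inv_val, sub_mul, one_mul, mul_inv_cancel₀ a.ne_zero]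
      rw [h8, map_mul, map_inv₀, h4, inv_one, mul_one, ← neg_sub, Valuation.map_neg]
      exact h3 P hP

/-- the divisors of the elements of `Ml` -/
def dM (c : K ≃+* K) (W T : Set (HOS K)) : AddSubgroup (Dv K) where
  carrier := {D | ∃ x ∈ Ml c W T, ∀ P, D P = ord P (x : K)}
  zero_mem' := ⟨1, Subgroup.one_mem _, fun P => by simp [ord_one]⟩
  add_mem' := by
    rintro a b ⟨x, hx, h1⟩ ⟨y, hy, h2⟩
    exact ⟨x * y, Subgroup.mul_mem _ hx hy, fun P => by
      rw [Finsupp.add_apply, h1, h2, Units.val_mul, ord_mul P x.ne_zero y.ne_zero]⟩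
  neg_mem' := by
    rintro a ⟨x, hx, h1⟩
    exact ⟨x⁻¹, Subgroup.inv_mem _ hx, fun P => by
      rw [Finsupp.neg_apply, h1, Units.val_inv_eq_inv_val, ord_inv]⟩

end defs

/-! ### Basic facts -/

/-- ROW rb:ORD (basic facts). `P.valuation K (algebraMap x) ≤ 1` for integral `x` and conversely (`HeightOneSpectrum.mem_integers_of_valuation_le_one`), finiteness of the support
(`HeightOneSpectrum.Support.finite`, or the factorisation of the numerator and denominator). `act σ P = σ(P)` (`equivOfRingEquiv` is `comap` of the inverse): `x ∈ P ↔ σ x ∈ σ P`, so the valuations agree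
(valuation determined by `intValuation`, the multiplicity of the prime in the ideal `(x)`; or `IsDedekindDomain.HeightOneSpectrum.valuation_liesOver`-like lemmas). -/
def ORD_stmt : Prop := ∀ (K : Type) [Field K] [NumberField K],
  (∀ x : K, x ≠ 0 → {P : HOS K | ord P x ≠ 0}.Finite) ∧
  (∀ (x : K) (P : HOS K), x ≠ 0 → (0 ≤ ord P x ↔ P.valuation K x ≤ 1)) ∧
  (∀ (x : K) (P : HOS K), x ≠ 0 → (ord P x = 0 ↔ P.valuation K x = 1)) ∧
  (∀ x : K, x ≠ 0 → (∀ P : HOS K, ord P x = 0) → ∃ u : (𝓞 K)ˣ, (u : K) = x) ∧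
  (∀ (u : (𝓞 K)ˣ) (P : HOS K), ord P (u : K) = 0) ∧
  (∀ (σ : K ≃+* K) (P : HOS K) (x : K), (act σ P).valuation K (σ x) = P.valuation K x ∧
    ord (act σ P) (σ x) = ord P x) ∧
  (∀ P : HOS K, act (RingEquiv.refl K) P = P) ∧
  (∀ (σ τ : K ≃+* K) (P : HOS K), act (σ.trans τ) P = act τ (act σ P)) ∧
  ∀ (k : Type) [Field k] [NumberField k] [Algebra k K] (σ : K ≃+* K) (P : HOS K),
    (∀ x : k, σ (algebraMap k K x) = algebraMap k K x) → (act σ P).under (𝓞 k) = P.under (𝓞 k)

/-- ROW rb:DCL (the class number). `Dv K` is isomorphic to the group of fractional ideals (`FractionalIdeal.count`, `FractionalIdeal.finprod_heightOneSpectrum_factorization`; or: `Ideal` factorisation), `Pr K` to the principal ones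
(`ClassGroup`). The index is `classNumber K`, in particular not 0. -/
def DCL_stmt : Prop := ∀ (K : Type) [Field K] [NumberField K], (Pr K).index = classNumber K

/-- ROW rb:CCJ (`c` is complex conjugation). `c` fixes `k`, whose image in `K` is `K⁺` (`CMExtension.equivMaximalRealSubfield`), so it is a `K⁺`-automorphism `≠ 1`; there are only two. -/
def CCJ_stmt : Prop := ∀ (k K : Type) [Field k] [NumberField k] [Field K] [NumberField K] [Algebra k K]
  [Algebra.IsQuadraticExtension k K] [IsTotallyReal k] [IsCMField K] (c : K ≃+* K), c ≠ RingEquiv.refl K →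
  (∀ x : k, c (algebraMap k K x) = algebraMap k K x) →
  (∀ x : K, c x = IsCMField.complexConj K x) ∧ (∀ x : K, c (c x) = x) ∧
  (∀ (φ : K →+* ℂ) (x : K), φ (c x) = (starRingEnd ℂ) (φ x)) ∧
  (∀ x : K, c x = x → ∃ y : k, x = algebraMap k K y)

/-- ROW rb:H90 (from CCJ; Hilbert 90 for `K/k`). `x ≠ -1`: `y = 1 + x`, `c y = 1 + x⁻¹ = y / x`. `x = -1`: `y = a - c a` with `c a ≠ a`. Only the second clause of CCJ is used (or prove `c (c x) = x` directly from degree 2). -/
def H90_stmt : Prop := ∀ (k K : Type) [Field k] [NumberField k] [Field K] [NumberField K] [Algebra k K]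
  [Algebra.IsQuadraticExtension k K] [IsTotallyReal k] [IsCMField K] (c : K ≃+* K), c ≠ RingEquiv.refl K →
  (∀ x : k, c (algebraMap k K x) = algebraMap k K x) → ∀ x : K, x * c x = 1 → ∃ y : K, y ≠ 0 ∧ x = y / c y

/-! ### The ambiguous class number formula -/

/-- ROW rb:AM1 (from ORD, TYP). `t` = number of ramified primes. A `c`-invariant divisor is constant on the fibres of `P ↦ P.under` (TYP: the fibres are the `c`-orbits), so `Inv c` is the group of all functions on `HOS k` with finite support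
and `Ik` the subgroup of the functions which are even at the `q` with `ty K q = 0` (fibres are nonempty and finite). So the index is `2^t` (for `t` finite; finiteness: as in the docstring of PRD). -/
def AM1_stmt : Prop := ∀ (k K : Type) [Field k] [NumberField k] [Field K] [NumberField K] [Algebra k K]
  [Algebra.IsQuadraticExtension k K] (c : K ≃+* K), c ≠ RingEquiv.refl K →
  (∀ x : k, c (algebraMap k K x) = algebraMap k K x) → Ik K k ≤ Inv c ∧
  {q : HOS k | ty K q = 0}.Finite ∧ (Ik K k).relIndex (Inv c) = 2 ^ {q : HOS k | ty K q = 0}.ncard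

/-- ROW rb:AM2 (from ORD, DCL, TYP). `E ↦ (P ↦ e(P) E (P.under))` is an isomorphism `Dv k ≃ Ik` (every prime of `k` has a prime above it) which maps `Pr k` onto `Pk` (TYP: `ord P (algebraMap x) = e ord q x`). DCL for `k`. -/
def AM2_stmt : Prop := ∀ (k K : Type) [Field k] [NumberField k] [Field K] [NumberField K] [Algebra k K]
  [Algebra.IsQuadraticExtension k K], Pk K k ≤ Ik K k ∧ (Pk K k).relIndex (Ik K k) = classNumber k

/-- ROW rb:AM3 (from ORD, CCJ, H90). `D ∈ Pr ∩ Inv`, `D = div y`: `y / c y` is a unit `ε` with `ε c(ε) = 1`, so `|ε|_v = 1` for all `v` and `ε` is a root of unity (`Units.mem_torsion`). The class of `y / c y` in `μ_K / {u / c u : u a unit}` depends only on `D`;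
this is a homomorphism `Pr ∩ Inv → μ_K / (unitsMulComplexConjInv K).range`, onto by H90 (`ζ c(ζ) = 1`, `IsCMField.complexConj_torsion`), with kernel `Pk` (`y / c y = u / c u`: `y / u` is fixed by `c`, so it is in `k`: CCJ). The order of the quotient is
`(unitsMulComplexConjInv K).range.index`, `IsCMField.indexRealUnits_mul_eq`. -/
def AM3_stmt : Prop := ∀ (k K : Type) [Field k] [NumberField k] [Field K] [NumberField K] [Algebra k K]
  [Algebra.IsQuadraticExtension k K] [IsTotallyReal k] [IsCMField K] (c : K ≃+* K), c ≠ RingEquiv.refl K →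
  (∀ x : k, c (algebraMap k K x) = algebraMap k K x) → Pk K k ≤ Pr K ⊓ Inv c ∧
  (Pk K k).relIndex (Pr K ⊓ Inv c) * IsCMField.indexRealUnits K = 2

/-- ROW rb:AMB (from DCL, AM1, AM2, AM3; the ambiguous class number formula). `h_K = [Dv : Pr] = [Dv : Pr ⊔ Inv] [Pr ⊔ Inv : Pr]`, `[Pr ⊔ Inv : Pr] = [Inv : Pr ⊓ Inv]`, `[Inv : Pr ⊓ Inv] [Pr ⊓ Inv : Pk] = [Inv : Pk] = [Inv : Ik] [Ik : Pk] = 2^t h_k`. -/
def AMB_stmt : Prop := ∀ (k K : Type) [Field k] [NumberField k] [Field K] [NumberField K] [Algebra k K]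
  [Algebra.IsQuadraticExtension k K] [IsTotallyReal k] [IsCMField K] (c : K ≃+* K), c ≠ RingEquiv.refl K →
  (∀ x : k, c (algebraMap k K x) = algebraMap k K x) →
  (Pr K ⊔ Inv c).index * 2 ^ {q : HOS k | ty K q = 0}.ncard * classNumber k * IsCMField.indexRealUnits K =
    2 * classNumber K

/-! ### The index of the lattice -/

/-- ROW rb:IDB (from ORD, CCJ, H90). For `D ∈ DV c W` put `D₀ = max D 0`; as `D (c P) = - D P`, `D = D₀ - c D₀` (`(c D₀) P = D₀ (c⁻¹ P)`). The class of `D₀` modulo `Pr ⊔ Inv` depends only on `D` (`D₀ - c D₀ = D₁ - c D₁` implies `D₀ - D₁ ∈ Inv`), so this is a homomorphism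
`DV c W → Dv / (Pr ⊔ Inv)`. Its kernel is contained in `dM c W ∅`: `D₀ = div y + E`, `E ∈ Inv`, gives `D = div (y / c y)`, and `x = y / c y` has `x c(x) = 1` and is of order 0 outside `W`. So `[DV : ker]` divides `[Dv : Pr ⊔ Inv]` and `[DV : dM]` divides `[DV : ker]`. (`H90` is not needed for this direction.) -/
def IDB_stmt : Prop := ∀ (k K : Type) [Field k] [NumberField k] [Field K] [NumberField K] [Algebra k K]
  [Algebra.IsQuadraticExtension k K] [IsTotallyReal k] [IsCMField K] (c : K ≃+* K), c ≠ RingEquiv.refl K →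
  (∀ x : k, c (algebraMap k K x) = algebraMap k K x) → ∀ W : Set (HOS K),
  dM c W ∅ ≤ DV c W ∧ (dM c W ∅).relIndex (DV c W) ∣ (Pr K ⊔ Inv c).index

/-- ROW rb:KRN (from ORD, CCJ; the kernel of the divisor map). `x` is a unit (ORD), `|φ x|² = φ x φ (c x) = 1` for all embeddings, so `x` is a root of unity (`Units.mem_torsion`). The second claim: `ζ c(ζ) = 1` by `IsCMField.complexConj_torsion`. -/
def KRN_stmt : Prop := ∀ (k K : Type) [Field k] [NumberField k] [Field K] [NumberField K] [Algebra k K]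
  [Algebra.IsQuadraticExtension k K] [IsTotallyReal k] [IsCMField K] (c : K ≃+* K), c ≠ RingEquiv.refl K →
  (∀ x : k, c (algebraMap k K x) = algebraMap k K x) →
  (∀ x : K, x * c x = 1 → (∀ P : HOS K, ord P x = 0) → ∃ ζ ∈ Units.torsion K, ((ζ : (𝓞 K)ˣ) : K) = x) ∧
  ∀ ζ ∈ Units.torsion K, ((ζ : (𝓞 K)ˣ) : K) * c ((ζ : (𝓞 K)ˣ) : K) = 1

/-- ROW rb:RES (from ORD, TYP; residues). `q` unramified in `K`, `W` = the complement of the primes above `q`. Split case (`P, P' = c P`): reduction mod `P` maps `Ml c W ∅` to `(𝓞 K / P)ˣ` of order `N q - 1`; the kernel is contained in `Ml c W {P, P'}`: if `x ≡ 1` mod `P`, then `c x = x⁻¹ ≡ 1` mod `P`, so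
`x ≡ 1` mod `c P = P'`. Inert case: reduction mod `P` maps to the `y ∈ (𝓞 K / P)ˣ` with `y^{N q + 1} = 1`: `c` acts on the field `𝓞 K / P` with `N q ²` elements as an automorphism over `𝓞 k / q`, so as the identity or the Frobenius `y ↦ y^{N q}`; not as the identity, because the inertia
group of `P` has order `e = 1` (or because: pick `a` integral generating `𝓞 K / P`; ...). In the cyclic group of order `N q ² - 1` there are `N q + 1` such `y`. -/
def RES_stmt : Prop := ∀ (k K : Type) [Field k] [NumberField k] [Field K] [NumberField K] [Algebra k K]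
  [Algebra.IsQuadraticExtension k K] (c : K ≃+* K), c ≠ RingEquiv.refl K →
  (∀ x : k, c (algebraMap k K x) = algebraMap k K x) → ∀ q : HOS k, ty K q ≠ 0 →
  (((Ml c {P : HOS K | P.under (𝓞 k) ≠ q} {P : HOS K | P.under (𝓞 k) = q}).relIndex
    (Ml c {P : HOS K | P.under (𝓞 k) ≠ q} ∅) : ℕ) : ℤ) ∣ (nm q : ℤ) - ty K q

/-- ROW rb:IDA (from KRN, RES). First `[Ml c W ∅ : Ml c W T]` divides `∏_{q ∈ T} (N q - ty q)`, by induction on `T`: `Ml c W (T ∪ {q}) = Ml c W T ⊓ X₁`, `Ml c W T ≤ X`, where `X₁ ≤ X` are the groups in RES, so `[Ml c W T : Ml c W T ⊓ X₁]` divides `[X : X₁]`. The map `div` on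
`Ml c W ∅` has kernel `μ_K` (KRN; of order `torsionOrder K`, contained in `Ml c W ∅`), and `μ_K ∩ Ml c W T = 1` by hypothesis, so `[Ml c W ∅ : Ml c W T] = [Ml c W ∅ : Ml c W T μ_K] w_K = [dM c W ∅ : dM c W T] w_K`. -/
def IDA_stmt : Prop := ∀ (k K : Type) [Field k] [NumberField k] [Field K] [NumberField K] [Algebra k K]
  [Algebra.IsQuadraticExtension k K] [IsTotallyReal k] [IsCMField K] (c : K ≃+* K), c ≠ RingEquiv.refl K →
  (∀ x : k, c (algebraMap k K x) = algebraMap k K x) → ∀ (W : Set (HOS K)) (T : Finset (HOS k)),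
  (∀ q ∈ T, ty K q ≠ 0) → (∀ P ∈ W, P.under (𝓞 k) ∉ T) →
  (∀ ζ ∈ Units.torsion K, (∀ P : HOS K, P.under (𝓞 k) ∈ T →
    P.valuation K (((ζ : (𝓞 K)ˣ) : K) - 1) < 1) → ζ = 1) →
  (((dM c W {P : HOS K | P.under (𝓞 k) ∈ T}).relIndex (dM c W ∅) : ℕ) : ℤ) * (Units.torsionOrder K : ℤ) ∣
    ∏ q ∈ T, ((nm q : ℤ) - ty K q)

/-- ROW rb:IDX (from IDB, IDA, AMB). `[DV : dM c W T] = [DV : dM c W ∅] [dM c W ∅ : dM c W T]` (`relIndex_mul_relIndex`), so `[DV : dM c W T] w_K` divides `[Dv : Pr ⊔ Inv] ∏ (N q - ty q)`; multiply by `2^t h_k Q` and use AMB. Not 0, as `h_K ≠ 0` and `N q ≥ 2`. -/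
def IDX_stmt : Prop := ∀ (k K : Type) [Field k] [NumberField k] [Field K] [NumberField K] [Algebra k K]
  [Algebra.IsQuadraticExtension k K] [IsTotallyReal k] [IsCMField K] (c : K ≃+* K), c ≠ RingEquiv.refl K →
  (∀ x : k, c (algebraMap k K x) = algebraMap k K x) → ∀ (W : Set (HOS K)) (T : Finset (HOS k)),
  (∀ q ∈ T, ty K q ≠ 0) → (∀ P ∈ W, P.under (𝓞 k) ∉ T) →
  (∀ ζ ∈ Units.torsion K, (∀ P : HOS K, P.under (𝓞 k) ∈ T →
    P.valuation K (((ζ : (𝓞 K)ˣ) : K) - 1) < 1) → ζ = 1) →
  dM c W {P : HOS K | P.under (𝓞 k) ∈ T} ≤ DV c W ∧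
  (dM c W {P : HOS K | P.under (𝓞 k) ∈ T}).relIndex (DV c W) ≠ 0 ∧ ∃ z : ℤ,
  (((dM c W {P : HOS K | P.under (𝓞 k) ∈ T}).relIndex (DV c W) : ℕ) : ℤ) * z *
    (2 ^ {q : HOS k | ty K q = 0}.ncard * (classNumber k : ℤ) * (IsCMField.indexRealUnits K : ℤ) *
      (Units.torsionOrder K : ℤ)) =
    2 * (classNumber K : ℤ) * ∏ q ∈ T, ((nm q : ℤ) - ty K q)

end Pool.Agent.RB
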