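import Pool.Agent.helper91.RB.Spec5

/-!
# Project rb (MP_24e2e7_nt): the notions in the final statement

`QGr F H` is the group ring `ℚ[G]`, `G = Gal(H/F)`, as a commutative ring.
-/

set_option autoImplicit false

namespace Pool.Agent.RB

open NumberField IsDedekindDomain Module
open scoped nonZeroDivisors Real Classical IsMulCommutative

section defs

/-- the group ring `ℚ[Gal(H/F)]` of the abelian extension `H/F` -/
def QGr (F H : Type) [Field F] [NumberField F] [Field H] [NumberField H] [Algebra F H] [IsAbelianGalois F H] : Type :=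
  MonoidAlgebra ℚ (H ≃ₐ[F] H)

/-- its usual ring structure -/
noncomputable instance instQGr (F H : Type) [Field F] [NumberField F] [Field H] [NumberField H] [Algebra F H] [IsAbelianGalois F H] :
    CommRing (QGr F H) :=
  (inferInstance : CommRing (MonoidAlgebra ℚ (H ≃ₐ[F] H)))

/-- the `r`th exterior power of the `R`-module `N` -/
def EP (R N : Type) [CommRing R] [AddCommGroup N] [Module R N] (r : ℕ) : Type := ⋀[R]^r N

/-- `n u` for a natural number `n` and an element `u` of an exterior power -/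
noncomputable def nsm {R N : Type} [CommRing R] [AddCommGroup N] [Module R N] {r : ℕ} (n : ℕ) (u : EP R N r) : EP R N r :=
  (n • (show ⋀[R]^r N from u) : ⋀[R]^r N)

/-- the determinant map on an exterior power: `detm f j (u_1 ∧ ... ∧ u_r) = det (f_i (j u_k))` for `R`-linear maps `j : N → W` and `f_1, ..., f_r : W → R` -/
noncomputable def detm {R W N : Type} [CommRing R] [AddCommGroup W] [Module R W] [AddCommGroup N] [Module R N] {r : ℕ}
    (f : Fin r → W →ₗ[R] R) (j : N →ₗ[R] W) (u : EP R N r) : R :=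
  DT (fun i => (f i).comp j) (show ⋀[R]^r N from u)

variable {F H : Type} [Field F] [NumberField F] [Field H] [NumberField H] [Algebra F H] [IsAbelianGalois F H]

/-- the inclusion `ℤ[G] → ℚ[G]` -/
noncomputable def toQ (y : MonoidAlgebra ℤ (H ≃ₐ[F] H)) : QGr F H := MonoidAlgebra.mapRingHom (H ≃ₐ[F] H) (Int.castRingHom ℚ) y

/-- an element of the Galois group as an element of `ℚ[G]` -/
noncomputable def sg (σ : H ≃ₐ[F] H) : QGr F H := MonoidAlgebra.single σ 1

/-- the value of a character at an element of `ℚ[G]` -/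
noncomputable def evG (χ : (H ≃ₐ[F] H) →* ℂˣ) (y : QGr F H) : ℂ := evQ χ y

/-- the group `U` of the data: elements of `Hˣ` which are `≡ 1` modulo the primes above `T` and units outside the primes above `V` -/
def UU [IsCMField H] {r : ℕ} (D : RData F H r) : Subgroup Hˣ := Ut F H (D.T : Set (HOS F)) (Set.range D.v)

/-- `ι : U → W` is the map from `U` to `ℚU = U ⊗ ℚ`: it is equivariant, every element of `W` has a nonzero multiple in the image, and the kernel is torsion -/
structure IsQU [IsCMField H] {r : ℕ} (D : RData F H r) {W : Type} [AddCommGroup W] [Module (QGr F H) W]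
    (ι : UU D → W) : Prop where
  mul : ∀ x y : UU D, ι (x * y) = ι x + ι y
  equiv : ∀ (σ : H ≃ₐ[F] H) (x y : UU D), ((y : Hˣ) : H) = σ ((x : Hˣ) : H) → ι y = sg σ • ι x
  denom : ∀ w : W, ∃ (n : ℕ) (x : UU D), n ≠ 0 ∧ n • w = ι x
  ker : ∀ x : UU D, ι x = 0 → ∃ n : ℕ, n ≠ 0 ∧ x ^ n = 1

/-- `j : N → W` is the inclusion of the minus part `{w : c w = -w}` -/
def IsMinus (c : H ≃ₐ[F] H) {W N : Type} [AddCommGroup W] [Module (QGr F H) W] [AddCommGroup N] [Module (QGr F H) N]
    (j : N →ₗ[QGr F H] W) : Prop :=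
  Function.Injective j ∧ ∀ w : W, (∃ x : N, j x = w) ↔ sg c • w = -w

/-- Rubin's lattice: the `u` in the `r`th exterior power of `ℚU^-` with `φ(u) ∈ ℤ[G]` for all `φ_1, ..., φ_r ∈ Hom_{ℤ[G]}(U, ℤ[G])`, the `φ_i` being given by their `ℚ[G]`-linear
extensions `f_i : ℚU → ℚ[G]` -/
def RubinL [IsCMField H] {r : ℕ} (D : RData F H r) {W N : Type} [AddCommGroup W] [Module (QGr F H) W] [AddCommGroup N]
    [Module (QGr F H) N] (ι : UU D → W) (j : N →ₗ[QGr F H] W) : Set (EP (QGr F H) N r) :=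
  {u | ∀ f : Fin r → W →ₗ[QGr F H] QGr F H, (∀ i x, ∃ y : MonoidAlgebra ℤ (H ≃ₐ[F] H), f i (ι x) = toQ y) →
    ∃ y : MonoidAlgebra ℤ (H ≃ₐ[F] H), detm f j u = toQ y}

/-- `Θ` is the Stickelberger element `Θ_{S,T}`: `χ(Θ) = L_{S,T}(χ⁻¹, 0)` for all characters `χ` of `G`, where `Lf χ` is the analytic continuation of `L(χ, s)` to `ℂ \ {1}` (`isL`) and
`LST` is the value at `s = 0` with the factors for `S` and `T` -/
def IsStickelberger [IsCMField H] {r : ℕ} (D : RData F H r) (Θ : QGr F H) : Prop :=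
  ∃ Lf : ((H ≃ₐ[F] H) →* ℂˣ) → ℂ → ℂ, isL Lf ∧ ∀ χ, evG χ Θ = LST Lf D.S D.T χ⁻¹

/-- `u` is the Rubin-Brumer-Stark element: `ord_G(u) = Θ_{S,T}`, where `ord_G` is the determinant of the `ℚ[G]`-linear extensions `o_i : ℚU → ℚ[G]` of `x ↦ ∑_σ ord_{w_i}(σ x) σ⁻¹` -/
def IsRBS [IsCMField H] {r : ℕ} (D : RData F H r) {W N : Type} [AddCommGroup W] [Module (QGr F H) W] [AddCommGroup N]
    [Module (QGr F H) N] (ι : UU D → W) (j : N →ₗ[QGr F H] W) (u : EP (QGr F H) N r) : Prop :=
  ∃ o : Fin r → W →ₗ[QGr F H] QGr F H, (∀ (i : Fin r) (x : UU D), o i (ι x) = toQ (ordZ F (D.w i) ((x : Hˣ) : H))) ∧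
    IsStickelberger D (detm o j u)

end defs

end Pool.Agent.RB
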