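import Pool.Agent.helper91.RB.Spec5

/-!
# Project rb (MP_24e2e7_nt). Block 6: the theorem with the number of places of `S`

RULES as in `Spec1.lean`. The rows PR2, CP2, VL3, CH2, CE2, CF2, RB2 are sharper versions of PRD, CMP, VL2, CHI, COE, CHF, RUB (same proofs up to small changes: copy the file of the old row, rename the prefix, and change what is necessary): the number `|S|`
of finite places in `S` enters. The final theorem is `RBF_stmt`.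
-/

set_option autoImplicit false

namespace Pool.Agent.RB

open NumberField IsDedekindDomain Module
open scoped nonZeroDivisors Real Classical IsMulCommutative

/-- ROW rb:PR2 (from TOW, ZRT, VAL; as PRD). `2^t ∏_{p ∈ S} (1 - τ_p)^{g_p}` is divisible by `2^|S|`: if some `τ_p = 1` it is 0; if `τ_p = -1` the factor is `2^{g_p}`; if `τ_p = 0` then the `g_p ≥ 1` primes `q` above `p` have `ty q = 0` and contribute to `t`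
(for different `p` they are different, so `t ≥ #{p ∈ S : τ_p = 0}`). -/
def PR2_stmt : Prop := ∀ (F k K : Type) [Field F] [NumberField F] [Field k] [NumberField k] [Field K] [NumberField K]
  [Algebra F k] [Algebra k K] [Algebra F K] [IsScalarTower F k K] [IsAbelianGalois F k] [IsAbelianGalois F K]
  [Algebra.IsQuadraticExtension k K] [IsTotallyReal k] [IsCMField K]
  (c : K ≃ₐ[F] K), c ≠ 1 → (∀ x : k, c (algebraMap k K x) = algebraMap k K x) →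
  ∀ (Lf : ((K ≃ₐ[F] K) →* ℂˣ) → ℂ → ℂ), isL Lf → ∀ (S T : Finset (HOS F)) (Tk : Finset (HOS k)),
  (∀ q, q ∈ Tk ↔ q.under (𝓞 F) ∈ T) → (∀ q ∈ Tk, ty K q ≠ 0) →
  {q : HOS k | ty K q = 0}.Finite ∧
  ∃ z : ℤ, 2 ^ {q : HOS k | ty K q = 0}.ncard *
      ((classNumber k : ℂ) * (IsCMField.indexRealUnits K : ℂ) * (Units.torsionOrder K : ℂ)) *
      ∏ χ ∈ odd c, LST Lf S T χ =
    2 ^ S.card * (z : ℂ) * 2 ^ finrank ℚ k * (classNumber K : ℂ) * ∏ q ∈ Tk, ((nm q : ℂ) - (ty K q : ℂ))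

/-- ROW rb:CP2 (from PR2, IDX, PSI, LTR, UNT, TCK, VLU; as CMP). With `X = 2^t h_k Q w_K ≠ 0`, `I` = the index: PR2: `X ∏ ψ(Θ) = 2^|S| z 2^{n'} h_K ∏ (N q - ty q)`, IDX: `I z' X = 2 h_K ∏ (N q - ty q)`, so `2 ∏ ψ(Θ) = z z' 2^{n' + |S|} I`, and `n' = [k : ℚ] = n #Psi`. -/
def CP2_stmt : Prop := ∀ (F k K H : Type) [Field F] [NumberField F] [Field k] [NumberField k] [Field K] [NumberField K] [Field H] [NumberField H]
  [Algebra F k] [Algebra k K] [Algebra F K] [Algebra K H] [Algebra F H] [IsScalarTower F k K] [IsScalarTower F K H]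
  [IsAbelianGalois F k] [IsAbelianGalois F K] [IsAbelianGalois F H] [Algebra.IsQuadraticExtension k K] [IsTotallyReal k] [IsCMField K]
  [IsTotallyReal F] [IsCMField H] (r : ℕ) (D : RData F H r),
  (∀ x : k, (AlgEquiv.restrictNormalHom K D.c : K ≃ₐ[F] K) (algebraMap k K x) = algebraMap k K x) →
  (AlgEquiv.restrictNormalHom K D.c : K ≃ₐ[F] K) ≠ 1 →
  finrank ℚ k = finrank ℚ F * (Psi (AlgEquiv.restrictNormalHom K : (H ≃ₐ[F] H) →* (K ≃ₐ[F] K)).ker D.c).card →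
  ∀ (Lf : ((H ≃ₐ[F] H) →* ℂˣ) → ℂ → ℂ), isL Lf → ∀ Θ : MonoidAlgebra ℚ (H ≃ₐ[F] H), (∀ χ, evQ χ Θ = LST Lf D.S D.T χ⁻¹) →
  dM ((AlgEquiv.restrictNormalHom K D.c : K ≃ₐ[F] K) : K ≃+* K) {P : HOS K | ∃ j, P.under (𝓞 F) = (D.w j).under (𝓞 F)} {P : HOS K | P.under (𝓞 F) ∈ D.T} ≤
    DV ((AlgEquiv.restrictNormalHom K D.c : K ≃ₐ[F] K) : K ≃+* K) {P : HOS K | ∃ j, P.under (𝓞 F) = (D.w j).under (𝓞 F)} ∧
  (dM ((AlgEquiv.restrictNormalHom K D.c : K ≃ₐ[F] K) : K ≃+* K) {P : HOS K | ∃ j, P.under (𝓞 F) = (D.w j).under (𝓞 F)} {P : HOS K | P.under (𝓞 F) ∈ D.T}).relIndex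
    (DV ((AlgEquiv.restrictNormalHom K D.c : K ≃ₐ[F] K) : K ≃+* K) {P : HOS K | ∃ j, P.under (𝓞 F) = (D.w j).under (𝓞 F)}) ≠ 0 ∧
  ∃ z : ℤ, 2 * ∏ ψ ∈ Psi (AlgEquiv.restrictNormalHom K : (H ≃ₐ[F] H) →* (K ≃ₐ[F] K)).ker D.c, evQ ψ Θ =
    2 ^ (finrank ℚ F * (Psi (AlgEquiv.restrictNormalHom K : (H ≃ₐ[F] H) →* (K ≃ₐ[F] K)).ker D.c).card + D.S.card) * (z : ℂ) *
    ((dM ((AlgEquiv.restrictNormalHom K D.c : K ≃ₐ[F] K) : K ≃+* K) {P : HOS K | ∃ j, P.under (𝓞 F) = (D.w j).under (𝓞 F)} {P : HOS K | P.under (𝓞 F) ∈ D.T}).relIndex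
      (DV ((AlgEquiv.restrictNormalHom K D.c : K ≃ₐ[F] K) : K ≃+* K) {P : HOS K | ∃ j, P.under (𝓞 F) = (D.w j).under (𝓞 F)}) : ℂ)

/-- ROW rb:VL3 (from CY2; as VL2). `N = #Psi`, `Psi = {χ^j : j < 2^a odd}`. Apply CY2 to the polynomial `(2 / 2^e) (∑_σ y_σ X^{i(σ)})^N`: the product of its values at the `ζ^j` is `(2 / 2^e)^N (∏ ψ(y))^N = z^N`. -/
def VL3_stmt : Prop := ∀ (G : Type) [CommGroup G] [Finite G] (m : ℕ), Nat.card G = 2 ^ m → ∀ (c : G) (χ : G →* ℂˣ), χ c = -1 →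
  ∀ (y : MonoidAlgebra ℚ G) (e : ℕ) (z : ℤ), 2 * ∏ ψ ∈ Psi χ.ker c, evQ ψ y = 2 ^ e * (z : ℂ) →
  ∃ d : ℕ, Odd d ∧ IsIntegral ℤ ((d : ℂ) * (2 * evQ χ y ^ (Psi χ.ker c).card / 2 ^ e))

/-- ROW rb:CH2 (from DET, RAT, VL3; as CHI). -/
def CH2_stmt : Prop := ∀ (G : Type) [CommGroup G] [Finite G] (m : ℕ) (c : G), Nat.card G = 2 ^ m → c * c = 1 →
  ∀ χ : G →* ℂˣ, χ c = -1 →
  ∀ (U : Type) [AddCommGroup U] (s : G → U →+ U) (M : AddSubgroup U) (r : ℕ) (β φ : Fin r → U →+ MonoidAlgebra ℤ G),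
  (∀ g, ∀ u ∈ M, s g u ∈ M) → (∀ j g u, β j (s g u) = MonoidAlgebra.single g 1 * β j u) →
  (∀ j g u, φ j (s g u) = MonoidAlgebra.single g 1 * φ j u) →
  (∀ j, ∀ u ∈ M, β j u ∈ Elat χ.ker c) → (∀ u ∈ M, (∀ j, β j u = 0) → u = 0) →
  (M.map (AddMonoidHom.pi β)).relIndex (AddSubgroup.pi Set.univ (fun _ : Fin r => Elat χ.ker c)) ≠ 0 →
  ∀ (W : Type) [AddCommGroup W] [Module (MonoidAlgebra ℚ G) W] (ι : U →+ W) (o f : Fin r → W →ₗ[MonoidAlgebra ℚ G] MonoidAlgebra ℚ G),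
  (∀ g u, ι (s g u) = (MonoidAlgebra.single g 1 : MonoidAlgebra ℚ G) • ι u) →
  (∀ j u, o j (ι u) = zq (β j u)) → (∀ j u, f j (ι u) = zq (φ j u)) →
  (∀ w : W, (MonoidAlgebra.single c 1 : MonoidAlgebra ℚ G) • w = -w → (∀ j, o j w = 0) → w = 0) →
  ∀ (u : ⋀[MonoidAlgebra ℚ G]^r (Wm c W)) (e : ℕ) (z : ℤ),
  2 * ∏ ψ ∈ Psi χ.ker c, evQ ψ (DT (fun j => (o j).comp (Wm c W).subtype) u) =
    2 ^ e * (z : ℂ) *
      ((M.map (AddMonoidHom.pi β)).relIndex (AddSubgroup.pi Set.univ (fun _ : Fin r => Elat χ.ker c)) : ℂ) →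
  ∃ d : ℕ, Odd d ∧ IsIntegral ℤ ((d : ℂ) *
    (2 * evQ χ (DT (fun j => (f j).comp (Wm c W).subtype) u) ^ (Psi χ.ker c).card / 2 ^ e))

/-- ROW rb:CE2 (from CO1, CO2, COE; the coefficients). `g₀` has order `2^(h+1)`, so `h + 1 ≤ a`, `h + 1 ≤ m`; put `M = 2^(a-1)`. Let `Z2` be the ring of the `α ∈ ℂ` such that `d α` is an algebraic integer for some odd `d`; `α^M ∈ Z2` implies `α ∈ Z2`.
`N = #Psi(ker χ) = (order of χ) / 2` divides `M` (see the proof of VL2). CASE `s = 0`: `(2 χ(y) / 2^n)^N = 2^(N-1) (2 χ(y)^N / 2^(n N)) ∈ Z2`, so `2 χ(y) / 2^n ∈ Z2` and COE with `δ = 1` gives the claim (for `k` larger than `m + 1 - (h + n)` multiply by a power of 2).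
CASE `s ≥ 1`: raise the hypothesis to the power `M / N` and multiply by `2^((s-1)(M/N-1))`: `χ(y)^M / 2^(n M + s - 1) ∈ Z2`. Let `θ > 0`, `θ^M = 2`. So `χ(y) / (2^n θ^(s-1)) ∈ Z2` for all odd `χ`. Let `β = ∑_{i < 2^h} y_{σ g₀^i} ζ^i`. CO1: `2^(m-h) β = ∑ χ(y) χ(σ)⁻¹` (the `χ` with `χ g₀ = ζ` are odd),
so `2^(m-h) β / (2^n θ^(s-1)) ∈ Z2`. `γ = 2^k β`, `E = (n + h + k - m) M + (s - 1)` (an integer): taking `M`-th powers, `γ^M / 2^E ∈ Z2`. The hypothesis is `E + M / 2^h ≥ 1`. Let `π = 1 - ζ`: `2 = unit * π^(2^h)` in `ℤ[ζ]`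
(`∏_{j < 2^(h+1) odd} (1 - ζ^j) = 2`, each factor is a multiple of `π` and vice versa), so `π^M / 2^(M / 2^h)` is integral and `(π γ)^M / 2 ∈ Z2`. So `π γ ∈ Z2 ∩ ℚ(ζ)`, `η = d π γ ∈ ℤ[ζ]` for an odd `d` (CO2: write `π γ` in the basis `1, ..., ζ^(2^h-1)`), and we may take `d` such that `η^M / 2` is an algebraic integer, so in `ℤ[ζ]`.
Write `η = x + π w`, `x ∈ {0, 1}`, `w ∈ ℤ[ζ]` (`ζ ≡ 1`, and 2 is a multiple of `π`). If `x = 1` then `η^M ≡ 1` mod `π` and `η^M ∈ 2 ℤ[ζ]`, so 1 would be a multiple of `π`, impossible (norm, or: `1/π` is not integral since `1/2` is not). So `η = π w`, `d γ = w ∈ ℤ[ζ]`, and CO2 gives the claim (`i = 0`); finally take the product of the `d` over all `σ`.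
(If it is easier: prove by the same argument with any other bookkeeping.) -/
def CE2_stmt : Prop := ∀ (G : Type) [CommGroup G] [Finite G] (m h a : ℕ) (g₀ c : G), Nat.card G = 2 ^ m → (∀ g : G, g ^ 2 ^ a = 1) →
  c = g₀ ^ 2 ^ h → c ≠ 1 → c * c = 1 → ∀ (y : MonoidAlgebra ℚ G) (n s k : ℕ), MonoidAlgebra.single c 1 * y = -y →
  (∀ χ : G →* ℂˣ, χ c = -1 → ∃ d : ℕ, Odd d ∧
    IsIntegral ℤ ((d : ℂ) * (2 * evQ χ y ^ (Psi χ.ker c).card / 2 ^ (n * (Psi χ.ker c).card + s)))) →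
  (s = 0 → m + 1 ≤ n + h + k) →
  (s ≠ 0 → m * 2 ^ (a - 1) + 2 ≤ (n + h + k) * 2 ^ (a - 1) + s + 2 ^ (a - 1 - h)) →
  ∃ d : ℕ, Odd d ∧ ∀ σ : G, ∃ z : ℤ, (d : ℚ) * 2 ^ k * y.coeff σ = z

/-- ROW rb:CF2 (from ORD, CH2, TWR, CP2, IDM, INJ, ORZ, VLU; as CHF). -/
def CF2_stmt : Prop := ∀ (F H : Type) [Field F] [NumberField F] [Field H] [NumberField H] [Algebra F H] [IsAbelianGalois F H] [IsTotallyReal F] [IsCMField H]
  (r : ℕ) (D : RData F H r) (m : ℕ), Nat.card (H ≃ₐ[F] H) = 2 ^ m →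
  ∀ (Lf : ((H ≃ₐ[F] H) →* ℂˣ) → ℂ → ℂ), isL Lf → ∀ Θ : MonoidAlgebra ℚ (H ≃ₐ[F] H), (∀ χ, evQ χ Θ = LST Lf D.S D.T χ⁻¹) →
  ∀ (W : Type) [AddCommGroup W] [Module (MonoidAlgebra ℚ (H ≃ₐ[F] H)) W]
    (ι : Additive (Ut F H (D.T : Set (HOS F)) (Set.range D.v)) →+ W), isQU (F := F) (Ut F H (D.T : Set (HOS F)) (Set.range D.v)) ι →
  ∀ o : Fin r → W →ₗ[MonoidAlgebra ℚ (H ≃ₐ[F] H)] MonoidAlgebra ℚ (H ≃ₐ[F] H),
    (∀ j (x : Ut F H (D.T : Set (HOS F)) (Set.range D.v)), o j (ι (Additive.ofMul x)) = zq (ordZ F (D.w j) ((x : Hˣ) : H))) →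
  ∀ u : ⋀[MonoidAlgebra ℚ (H ≃ₐ[F] H)]^r (Wm D.c W), DT (fun j => (o j).comp (Wm D.c W).subtype) u = Θ →
  ∀ f : Fin r → W →ₗ[MonoidAlgebra ℚ (H ≃ₐ[F] H)] MonoidAlgebra ℚ (H ≃ₐ[F] H),
    (∀ i x, ∃ y : MonoidAlgebra ℤ (H ≃ₐ[F] H), f i (ι x) = zq y) →
  ∀ χ : (H ≃ₐ[F] H) →* ℂˣ, χ D.c = -1 →
  ∃ d : ℕ, Odd d ∧ IsIntegral ℤ ((d : ℂ) *
    (2 * evQ χ (DT (fun j => (f j).comp (Wm D.c W).subtype) u) ^ (Psi χ.ker D.c).card /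
      2 ^ (finrank ℚ F * (Psi χ.ker D.c).card + D.S.card)))

/-- ROW rb:MNK (Minkowski). If no prime ramifies in `H/F` then `[F : ℚ] ≥ 2`: otherwise `F = ℚ` and `H` is unramified over `ℚ` at all primes and `[H : ℚ] > 1`, which contradicts Minkowski's theorem (`Mathlib/NumberTheory/NumberField/ExistsRamified.lean`, or `NumberField.abs_discr_gt_two`). -/
def MNK_stmt : Prop := ∀ (F H : Type) [Field F] [NumberField F] [Field H] [NumberField H] [Algebra F H] [IsTotallyReal F] [IsCMField H],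
  (∀ P : HOS H, Algebra.IsUnramifiedAt (𝓞 F) P.asIdeal) → 2 ≤ finrank ℚ F

/-- ROW rb:RBF (from CF2, CE2, UNI, ANT, MNK; the final theorem; first part as RUB). Second part: `G` cyclic with generator `g`, `c` is its only element of order 2, so `c = g^(2^(m-1))` (`m ≥ 1`); apply the first part with `g₀ = g`, `h = m - 1`, `a = m`, `k = 0`. If `S = ∅` then `n ≥ 2` by MNK and `m + 1 ≤ n + (m - 1)`. If `S ≠ ∅`:
`m 2^(m-1) + 2 ≤ (n + m - 1) 2^(m-1) + |S| + 1` as `n ≥ 1`, `|S| ≥ 1`. -/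
def RBF_stmt : Prop := ∀ (F H : Type) [Field F] [NumberField F] [Field H] [NumberField H] [Algebra F H] [IsAbelianGalois F H] [IsTotallyReal F] [IsCMField H]
  (r : ℕ), 1 ≤ r → ∀ (D : RData F H r) (m : ℕ), Nat.card (H ≃ₐ[F] H) = 2 ^ m →
  ∀ (Lf : ((H ≃ₐ[F] H) →* ℂˣ) → ℂ → ℂ), isL Lf → ∀ Θ : MonoidAlgebra ℚ (H ≃ₐ[F] H), (∀ χ, evQ χ Θ = LST Lf D.S D.T χ⁻¹) →
  ∀ (W : Type) [AddCommGroup W] [Module (MonoidAlgebra ℚ (H ≃ₐ[F] H)) W]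
    (ι : Additive (Ut F H (D.T : Set (HOS F)) (Set.range D.v)) →+ W), isQU (F := F) (Ut F H (D.T : Set (HOS F)) (Set.range D.v)) ι →
  ∀ o : Fin r → W →ₗ[MonoidAlgebra ℚ (H ≃ₐ[F] H)] MonoidAlgebra ℚ (H ≃ₐ[F] H),
    (∀ j (x : Ut F H (D.T : Set (HOS F)) (Set.range D.v)), o j (ι (Additive.ofMul x)) = zq (ordZ F (D.w j) ((x : Hˣ) : H))) →
  ∀ u : ⋀[MonoidAlgebra ℚ (H ≃ₐ[F] H)]^r (Wm D.c W), DT (fun j => (o j).comp (Wm D.c W).subtype) u = Θ →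
  (∀ (a h k : ℕ) (g₀ : H ≃ₐ[F] H), (∀ g : H ≃ₐ[F] H, g ^ 2 ^ a = 1) → g₀ ^ 2 ^ h = D.c →
    (D.S = ∅ → m + 1 ≤ finrank ℚ F + h + k) →
    (D.S ≠ ∅ → m * 2 ^ (a - 1) + 2 ≤ (finrank ℚ F + h + k) * 2 ^ (a - 1) + D.S.card + 2 ^ (a - 1 - h)) →
    ∃ d : ℕ, Odd d ∧ (d * 2 ^ k) • u ∈ RL D.c W ι r) ∧
  (IsCyclic (H ≃ₐ[F] H) → ∃ d : ℕ, Odd d ∧ d • u ∈ RL D.c W ι r)

end Pool.Agent.RB
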