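import Pool.Agent.helper91.RB.Fin
import Pool.Agent.helper91.RB.Spec6
import Pool.Agent.helper8.RB.THB
import Pool.Agent.helper37.RB.THI
import Pool.Agent.helper18.RB.DUA
import Pool.Agent.helper75.RB.THU
import Pool.Agent.helper39.RB.THD
import Pool.Agent.helper13.RB.TAU
import Pool.Agent.helper40.RB.FDX
import Pool.Agent.helper78.RB.FJE
import Pool.Agent.helper3.RB.FJD
import Pool.Agent.helper57.RB.WFE
import Pool.Agent.helper67.RB.MEL
import Pool.Agent.helper16.RB.GEN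
import Pool.Agent.helper8.RB.DZS
import Pool.Agent.helper41.RB.UNF
import Pool.Agent.helper3.RB.CLS
import Pool.Agent.helper74.RB.FE
import Pool.Agent.helper87.RB.CHV
import Pool.Agent.helper53.RB.GRP
import Pool.Agent.helper39.RB.LOC
import Pool.Agent.helper31.RB.INF
import Pool.Agent.helper68.RB.TYP
import Pool.Agent.helper38.RB.TOW
import Pool.Agent.helper83.RB.EUL
import Pool.Agent.helper46.RB.CNV
import Pool.Agent.helper56.RB.ZPR
import Pool.Agent.helper53.RB.ZRT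
import Pool.Agent.helper52.RB.VAL
import Pool.Agent.helper58.RB.ORD
import Pool.Agent.helper68.RB.DCL
import Pool.Agent.helper29.RB.CCJ
import Pool.Agent.helper40.RB.H90
import Pool.Agent.helper68.RB.AM1
import Pool.Agent.helper88.RB.AM2
import Pool.Agent.helper57.RB.AM3
import Pool.Agent.helper68.RB.AMB
import Pool.Agent.helper16.RB.IDB
import Pool.Agent.helper9.RB.KRN
import Pool.Agent.helper8.RB.RES
import Pool.Agent.helper40.RB.IDA
import Pool.Agent.helper9.RB.IDX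
import Pool.Agent.helper37.RB.LDT
import Pool.Agent.helper56.RB.MDT
import Pool.Agent.helper32.RB.EBS
import Pool.Agent.helper70.RB.DET
import Pool.Agent.helper36.RB.RAT
import Pool.Agent.helper7.RB.CY2
import Pool.Agent.helper66.RB.VL3
import Pool.Agent.helper95.RB.CO1
import Pool.Agent.helper88.RB.CO2
import Pool.Agent.helper72.RB.COE
import Pool.Agent.helper54.RB.CE2
import Pool.Agent.helper89.RB.VLU
import Pool.Agent.helper64.RB.ARS
import Pool.Agent.helper72.RB.SPL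
import Pool.Agent.helper46.RB.ORZ
import Pool.Agent.helper9.RB.INJ
import Pool.Agent.helper66.RB.BOR
import Pool.Agent.helper2.RB.DVE
import Pool.Agent.helper9.RB.IDM
import Pool.Agent.helper6.RB.TWR
import Pool.Agent.helper48.RB.PSI
import Pool.Agent.helper32.RB.LTR
import Pool.Agent.helper46.RB.UNT
import Pool.Agent.helper66.RB.TCK
import Pool.Agent.helper85.RB.UNI
import Pool.Agent.helper66.RB.ANT
import Pool.Agent.helper83.RB.PR2
import Pool.Agent.helper23.RB.CP2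
import Pool.Agent.helper46.RB.CH2
import Pool.Agent.helper25.RB.CF2
import Pool.Agent.helper18.RB.MNK
import Pool.Agent.helper66.RB.RBF

/-!
# Project rb (MP_24e2e7_nt): assembly

All rows of the project are put together: `fin_fe` is the functional equation of the Dedekind zeta function, `fin_val` the value at 0 of the quotient of the zeta functions
of a CM field and its maximal real subfield, `fin_amb` the ambiguous class number formula, `fin_rbf` the theorem. `fin_of_rbf` is a restatement over the ring `QGr`.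
-/

set_option autoImplicit false

namespace Pool.Agent.RB

open NumberField IsDedekindDomain Module
open scoped nonZeroDivisors Real Classical IsMulCommutative

theorem fin_DT_map {R N N' : Type} [CommRing R] [AddCommGroup N] [Module R N] [AddCommGroup N'] [Module R N'] {r : ℕ}
    (g : Fin r → N' →ₗ[R] R) (e : N →ₗ[R] N') (u : ⋀[R]^r N) :
    DT g (exteriorPower.map r e u) = DT (fun i => (g i).comp e) u := by
  have h : (DT g).comp (exteriorPower.map r e) = DT (fun i => (g i).comp e) := by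
    apply exteriorPower.linearMap_ext
    ext x
    simp only [DT, LinearMap.compAlternatingMap_apply, LinearMap.comp_apply, exteriorPower.map_apply_ιMulti,
      exteriorPower.alternatingMapLinearEquiv_apply_ιMulti]
    rfl
  exact congrArg (fun L => L u) h

theorem fin_of_rbf (hRBF : RBF_stmt) : ∀ (F H : Type) [Field F] [NumberField F] [Field H] [NumberField H] [Algebra F H]
    [IsAbelianGalois F H] [IsTotallyReal F] [IsCMField H] (r : ℕ), 1 ≤ r → ∀ (D : RData F H r) (m : ℕ),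
    Nat.card (H ≃ₐ[F] H) = 2 ^ m →
    ∀ (W N : Type) [AddCommGroup W] [Module (QGr F H) W] [AddCommGroup N] [Module (QGr F H) N] (ι : UU D → W), IsQU D ι →
    ∀ j : N →ₗ[QGr F H] W, IsMinus D.c j → ∀ u : EP (QGr F H) N r, IsRBS D ι j u →
    (∀ (a h k : ℕ) (g₀ : H ≃ₐ[F] H), (∀ g : H ≃ₐ[F] H, g ^ 2 ^ a = 1) → g₀ ^ 2 ^ h = D.c →
      (D.S = ∅ → m + 1 ≤ finrank ℚ F + h + k) →
      (D.S ≠ ∅ → m * 2 ^ (a - 1) + 2 ≤ (finrank ℚ F + h + k) * 2 ^ (a - 1) + D.S.card + 2 ^ (a - 1 - h)) →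
      ∃ d : ℕ, Odd d ∧ nsm (d * 2 ^ k) u ∈ RubinL D ι j) ∧
    (IsCyclic (H ≃ₐ[F] H) → ∃ d : ℕ, Odd d ∧ nsm d u ∈ RubinL D ι j) := by
  intro F H _ _ _ _ _ _ _ _ r hr D m hm W N _ _ _ _ ι hι j hj u hu
  obtain ⟨o, ho, Lf, hL, hΘ⟩ := hu
  let mW : Module (MonoidAlgebra ℚ (H ≃ₐ[F] H)) W := (inferInstance : Module (QGr F H) W)
  let mN : Module (MonoidAlgebra ℚ (H ≃ₐ[F] H)) N := (inferInstance : Module (QGr F H) N)
  let ι' : Additive (Ut F H (D.T : Set (HOS F)) (Set.range D.v)) →+ W :=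
    AddMonoidHom.mk' (fun x => ι (Additive.toMul x)) (fun x y => hι.mul _ _)
  have hι' : isQU (F := F) (Ut F H (D.T : Set (HOS F)) (Set.range D.v)) ι' :=
    ⟨fun σ x y h => hι.equiv σ x y h, fun w => hι.denom w, fun x h => hι.ker x h⟩
  let jN : N →ₗ[MonoidAlgebra ℚ (H ≃ₐ[F] H)] W := j
  let j' : N →ₗ[MonoidAlgebra ℚ (H ≃ₐ[F] H)] Wm D.c W :=
    LinearMap.codRestrict (Wm D.c W) jN (fun x => (hj.2 (j x)).1 ⟨x, rfl⟩)
  have key : ∀ (f : Fin r → W →ₗ[MonoidAlgebra ℚ (H ≃ₐ[F] H)] MonoidAlgebra ℚ (H ≃ₐ[F] H)) (x : ⋀[MonoidAlgebra ℚ (H ≃ₐ[F] H)]^r N),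
      DT (fun i => (f i).comp (Wm D.c W).subtype) (exteriorPower.map r j' x) = DT (fun i => (f i).comp jN) x := by
    intro f x
    rw [fin_DT_map]
    rfl
  let o' : Fin r → W →ₗ[MonoidAlgebra ℚ (H ≃ₐ[F] H)] MonoidAlgebra ℚ (H ≃ₐ[F] H) := o
  let u' : ⋀[MonoidAlgebra ℚ (H ≃ₐ[F] H)]^r N := u
  obtain ⟨h1, h2⟩ := hRBF F H r hr D m hm Lf hL (detm o j u) hΘ W ι' hι' o' (fun i x => ho i x)
    (exteriorPower.map r j' u') (key o' u')
  have back : ∀ n : ℕ, n • (exteriorPower.map r j' u') ∈ RL D.c W ι' r → nsm n u ∈ RubinL D ι j := by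
    intro n hn f hf
    let f' : Fin r → W →ₗ[MonoidAlgebra ℚ (H ≃ₐ[F] H)] MonoidAlgebra ℚ (H ≃ₐ[F] H) := f
    obtain ⟨y, hy⟩ := hn f' (fun i x => hf i x)
    rw [← map_nsmul (exteriorPower.map r j')] at hy
    exact ⟨y, (key f' (n • u')).symm.trans hy⟩
  exact ⟨fun a h k g₀ ha hg hS hS' => (h1 a h k g₀ ha hg hS hS').imp fun d hd => ⟨hd.1, back _ hd.2⟩,
    fun hc => (h2 hc).imp fun d hd => ⟨hd.1, back _ hd.2⟩⟩

theorem fin_thi : THI_stmt := THI THB
theorem fin_fje : FJE_stmt := FJE fin_thi THU TAU FDX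
theorem fin_fjd : FJD_stmt := FJD (THD fin_thi) TAU FDX
theorem fin_unf : UNF_stmt := UNF fin_thi TAU FDX MEL GEN DZS
theorem fin_fe : FE_stmt := FE DUA (WFE DUA fin_fje fin_fjd) fin_unf (CLS DUA DZS)
theorem fin_loc : LOC_stmt := LOC CHV GRP
theorem fin_inf : INF_stmt := INF CHV
theorem fin_tow : TOW_stmt := TOW fin_loc fin_inf TYP
theorem fin_eul : EUL_stmt := EUL DZS
theorem fin_zrt : ZRT_stmt := ZRT fin_inf (ZPR CHV fin_loc fin_eul (CNV fin_eul))
theorem fin_val : VAL_stmt := VAL fin_fe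
theorem fin_pr2 : PR2_stmt := PR2 fin_tow fin_zrt fin_val
theorem fin_h90 : H90_stmt := H90 CCJ
theorem fin_dcl : DCL_stmt := DCL ORD
theorem fin_amb : AMB_stmt := AMB fin_dcl (AM1 ORD TYP) (AM2 ORD fin_dcl TYP) (AM3 ORD CCJ fin_h90)
theorem fin_idx : IDX_stmt := IDX (IDB ORD CCJ) (IDA (KRN ORD CCJ) (RES ORD TYP)) fin_amb
theorem fin_det : DET_stmt := DET LDT MDT EBS
theorem fin_ch2 : CH2_stmt := CH2 fin_det RAT (VL3 CY2)
theorem fin_ce2 : CE2_stmt := CE2 CO1 CO2 (COE CO1 CO2)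
theorem fin_spl : SPL_stmt := SPL VLU ARS
theorem fin_idm : IDM_stmt := IDM ORD (BOR ORD ARS fin_spl) (DVE ORD VLU fin_spl)
theorem fin_cp2 : CP2_stmt := CP2 fin_pr2 fin_idx PSI (LTR fin_inf) (UNT TYP VLU) (TCK VLU) VLU
theorem fin_cf2 : CF2_stmt := CF2 ORD fin_ch2 TWR fin_cp2 fin_idm (INJ ORD fin_spl (ORZ ORD)) (ORZ ORD) VLU
theorem fin_rbf : RBF_stmt := RBF fin_cf2 fin_ce2 UNI ANT MNK

end Pool.Agent.RB
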