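import Pool.Agent.helper91.RB.Spec1

/-!
# Project rb (MP_24e2e7_nt). Block 2: L-functions of characters and the class number formula

RULES as in `Spec1.lean`. All number fields are in `Type`. `HOS K` is the type of the nonzero primes of `𝓞 K`; `P.under (𝓞 F)` is the prime
below. `G = K ≃ₐ[F] K`. The result of the block is `PRD_stmt`.
-/

set_option autoImplicit false

namespace Pool.Agent.RB

open NumberField IsDedekindDomain Module
open scoped nonZeroDivisors Real Classical

/-! ### Definitions -/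

section defs

/-- the primes of a number field -/
abbrev HOS (K : Type) [Field K] [NumberField K] : Type := HeightOneSpectrum (𝓞 K)

/-- the norm of a prime -/
noncomputable def nm {K : Type} [Field K] [NumberField K] (P : HOS K) : ℕ := Ideal.absNorm P.asIdeal

/-- the normalised additive valuation (0 at 0) -/
noncomputable def ord {K : Type} [Field K] [NumberField K] (P : HOS K) (x : K) : ℤ :=
  -WithZero.log (P.valuation K x)

/-- the action of automorphisms on primes: `act σ P = σ(P)` -/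
noncomputable def act {K : Type} [Field K] [NumberField K] (σ : K ≃+* K) (P : HOS K) : HOS K :=
  HeightOneSpectrum.equivOfRingEquiv (RingOfIntegers.mapRingEquiv σ) P

/-- the characters of a finite group form a finite set -/
noncomputable instance instFch {G : Type} [Group G] [Finite G] : Fintype (G →* ℂˣ) :=
  Fintype.ofFinite _

/-- the odd characters: `χ c = -1` -/
noncomputable def odd {G : Type} [Group G] [Finite G] (c : G) : Finset (G →* ℂˣ) :=
  Finset.univ.filter (fun χ => χ c = -1)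

/-- the decomposition type of a prime of `k` in a quadratic extension `K`: 1 split, -1 inert, 0 ramified -/
noncomputable def ty {k : Type} (K : Type) [Field k] [NumberField k] [Field K] [NumberField K]
    [Algebra k K] (q : HOS k) : ℤ :=
  if {P : HOS K | P.under (𝓞 k) = q}.ncard = 2 then 1
  else if ∃ P : HOS K, P.under (𝓞 k) = q ∧ nm P = nm q ^ 2 then -1 else 0

variable {F L : Type} [Field F] [NumberField F] [Field L] [NumberField L] [Algebra F L]

/-- `σ` is a Frobenius automorphism of some prime above `p` -/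
def isFr (p : HOS F) (σ : L ≃ₐ[F] L) : Prop :=
  ∃ P : HOS L, P.under (𝓞 F) = p ∧ ∀ x : 𝓞 L, σ • x - x ^ nm p ∈ P.asIdeal

/-- `χ` is unramified at `p`: trivial on the inertia groups above `p` -/
def unr (χ : (L ≃ₐ[F] L) →* ℂˣ) (p : HOS F) : Prop :=
  ∀ P : HOS L, P.under (𝓞 F) = p → ∀ σ : L ≃ₐ[F] L, (∀ x : 𝓞 L, σ • x - x ∈ P.asIdeal) → χ σ = 1

/-- the value `χ(p)`: the value at a Frobenius automorphism if `χ` is unramified at `p`, and 0 otherwise -/
noncomputable def chv (χ : (L ≃ₐ[F] L) →* ℂˣ) (p : HOS F) : ℂ :=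
  if unr χ p then (χ (Classical.epsilon (isFr p)) : ℂ) else 0

/-- the Euler product of `L(χ, s)` -/
noncomputable def LE (χ : (L ≃ₐ[F] L) →* ℂˣ) (s : ℂ) : ℂ :=
  ∏' p : HOS F, (1 - chv χ p * (nm p : ℂ) ^ (-s))⁻¹

/-- `Lf χ` is the analytic continuation of `L(χ, s)` to `ℂ \ {1}`, for all `χ` -/
def isL (Lf : ((L ≃ₐ[F] L) →* ℂˣ) → ℂ → ℂ) : Prop :=
  ∀ χ, DifferentiableOn ℂ (Lf χ) {1}ᶜ ∧ ∀ s : ℂ, 1 < s.re → Lf χ s = LE χ s

/-- the value `L_{S,T}(χ, 0)` -/
noncomputable def LST (Lf : ((L ≃ₐ[F] L) →* ℂˣ) → ℂ → ℂ) (S T : Finset (HOS F))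
    (χ : (L ≃ₐ[F] L) →* ℂˣ) : ℂ :=
  Lf χ 0 * (∏ p ∈ S, (1 - chv χ p)) * ∏ p ∈ T, (1 - chv χ p * (nm p : ℂ))

end defs

/-! ### Local theory -/

/-- ROW rb:CHV (the values `χ(p)`). `Ideal.absNorm p = Nat.card (𝓞 F ⧸ p)`. Existence of a Frobenius automorphism at every `P`, `IsArithFrobAt.exists_of_isInvariant` (`SMulCommClass G (𝓞 F) (𝓞 L)` is missing:
prove it with `ext; simp`-like arguments). Two Frobenius automorphisms at the same `P` differ by an element of the inertia group of `P` (`mul_inv_mem_inertia`, or: `σ x ≡ x^N ≡ τ x` mod `P` for all `x`, so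
`τ⁻¹ σ x - x ∈ τ⁻¹ P = P`, since the Frobenius fixes `P`). If `σ` is Frobenius at `P` and `τ` any automorphism, `τ σ τ⁻¹` is Frobenius at `τ P`; all primes above `p` are conjugate
(`Ideal.exists_smul_eq_of_isGaloisGroup` or the like), and `G` is commutative. `‖χ σ‖ = 1` since `σ` has finite order. -/
def CHV_stmt : Prop := ∀ (F L : Type) [Field F] [NumberField F] [Field L] [NumberField L] [Algebra F L]
  [IsAbelianGalois F L] (p : HOS F),
  (∃ P : HOS L, P.under (𝓞 F) = p) ∧
  (∀ P : HOS L, P.under (𝓞 F) = p → ∃ σ : L ≃ₐ[F] L, ∀ x : 𝓞 L, σ • x - x ^ nm p ∈ P.asIdeal) ∧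
  (∀ (χ : (L ≃ₐ[F] L) →* ℂˣ) (σ : L ≃ₐ[F] L), unr χ p → isFr p σ → chv χ p = (χ σ : ℂ)) ∧
  (∀ χ : (L ≃ₐ[F] L) →* ℂˣ, ¬ unr χ p → chv χ p = 0) ∧
  (∀ χ : (L ≃ₐ[F] L) →* ℂˣ, ‖chv χ p‖ ≤ 1) ∧
  ∀ χ : (L ≃ₐ[F] L) →* ℂˣ, (∃ P : HOS L, P.under (𝓞 F) = p ∧
    ∀ σ : L ≃ₐ[F] L, (∀ x : 𝓞 L, σ • x - x ∈ P.asIdeal) → χ σ = 1) → unr χ p

/-- ROW rb:GRP (pure group theory). Characters trivial on `I` are the characters of `G/I`; there are `|G/I| = f g` of them, and their values at `s` (of order `f` in `G/I`) are the `f`-th roots of unity, each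
`g` times (restriction of characters to the subgroup generated by `s` in `G/I` is onto, fibres of size `g`), and `∏_{ζ^f = 1} (1 - ζ X) = 1 - X^f`. Alternative: induction or orthogonality (`∑_χ χ(s)^j` and
logarithmic derivative). -/
def GRP_stmt : Prop := ∀ (G : Type) [Group G] [Finite G], (∀ a b : G, a * b = b * a) →
  ∀ (I : Subgroup G) (s : G) (f g : ℕ), 0 < f → (∀ n : ℕ, s ^ n ∈ I ↔ f ∣ n) →
  f * g * Nat.card I = Nat.card G → ∀ X : ℂ,
  ∏ χ : G →* ℂˣ, (1 - (if ∀ i ∈ I, χ i = 1 then (χ s : ℂ) else 0) * X) = (1 - X ^ f) ^ g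

/-- ROW rb:LOC (from CHV, GRP; the local factor). `f`, `g` = residue degree and number of primes above `p`, `e f g = |G|` (`ncard_primesOver_mul_ramificationIdxIn_mul_inertiaDegIn`),
`I` = the inertia group (`card_inertia_eq_ramificationIdxIn`), `s` = a Frobenius at `P`. `s^n ∈ I` iff `x^(N^n) = x` for all `x` in the finite field `𝓞 L / P` of order `N^f`, iff `f ∣ n`. -/
def LOC_stmt : Prop := ∀ (F L : Type) [Field F] [NumberField F] [Field L] [NumberField L] [Algebra F L]
  [IsAbelianGalois F L] (p : HOS F), ∃ f g : ℕ, 0 < f ∧ 0 < g ∧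
  {P : HOS L | P.under (𝓞 F) = p}.ncard = g ∧ (∀ P : HOS L, P.under (𝓞 F) = p → nm P = nm p ^ f) ∧
  ∀ X : ℂ, ∏ χ : (L ≃ₐ[F] L) →* ℂˣ, (1 - chv χ p * X) = (1 - X ^ f) ^ g

/-- ROW rb:INF (from CHV; inflation). Restriction maps the inertia group of `P` into that of `P ∩ K` and a Frobenius at `P` to a Frobenius at `P ∩ K`. The image of the inertia group of `P` is the whole inertia group of
`P ∩ K`: the kernel is the inertia group of `P` in `L ≃ₐ[K] L`, and the orders are the ramification indices (`card_inertia_eq_ramificationIdxIn`, `ramificationIdxIn_mul_ramificationIdxIn`). -/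
def INF_stmt : Prop := ∀ (F K L : Type) [Field F] [NumberField F] [Field K] [NumberField K] [Field L] [NumberField L]
  [Algebra F K] [Algebra K L] [Algebra F L] [IsScalarTower F K L] [IsAbelianGalois F K] [IsAbelianGalois F L]
  (ψ : (K ≃ₐ[F] K) →* ℂˣ) (p : HOS F),
  (unr (ψ.comp (AlgEquiv.restrictNormalHom K : (L ≃ₐ[F] L) →* (K ≃ₐ[F] K))) p ↔ unr ψ p) ∧
  chv (ψ.comp (AlgEquiv.restrictNormalHom K : (L ≃ₐ[F] L) →* (K ≃ₐ[F] K))) p = chv ψ p

/-- ROW rb:TYP (primes in a quadratic extension). `e f g = 2` (`ncard_primesOver_mul_ramificationIdxIn_mul_inertiaDegIn`), `c` permutes the primes above `q` transitively; for the last statements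
`HeightOneSpectrum.valuation_liesOver`. -/
def TYP_stmt : Prop := ∀ (k K : Type) [Field k] [NumberField k] [Field K] [NumberField K] [Algebra k K]
  [Algebra.IsQuadraticExtension k K] (c : K ≃ₐ[k] K), c ≠ 1 → ∀ q : HOS k,
  (ty K q = 1 ∧ ∃ P P' : HOS K, P ≠ P' ∧ {R : HOS K | R.under (𝓞 k) = q} = {P, P'} ∧ nm P = nm q ∧
    nm P' = nm q ∧ act (c : K ≃+* K) P = P' ∧ act (c : K ≃+* K) P' = P ∧
    ∀ x : k, ord P (algebraMap k K x) = ord q x ∧ ord P' (algebraMap k K x) = ord q x) ∨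
  (ty K q = -1 ∧ ∃ P : HOS K, {R : HOS K | R.under (𝓞 k) = q} = {P} ∧ nm P = nm q ^ 2 ∧
    act (c : K ≃+* K) P = P ∧ ∀ x : k, ord P (algebraMap k K x) = ord q x) ∨
  (ty K q = 0 ∧ ∃ P : HOS K, {R : HOS K | R.under (𝓞 k) = q} = {P} ∧ nm P = nm q ∧
    act (c : K ≃+* K) P = P ∧ ∀ x : k, ord P (algebraMap k K x) = 2 * ord q x)

/-- ROW rb:TOW (from LOC, INF, TYP; the tower). The characters `χ` of `K/F` with `χ c = 1` are the inflations of the characters of `k/F` (the kernel of the restriction to `k` is `{1, c}`),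
the others have `χ c = -1`. So LOC for `K/F` and `k/F` and INF: `(1 - X^{f'})^{g'} = (1 - X^f)^g ∏_{χ odd} (1 - chv χ p X)`, `f', g'` for `K/F`. The primes of `k` above `p` are conjugate over `F`, so they have
the same type `τ` (or: count with TYP: `nm P = nm p ^ f'`, so all have `nm P = nm q` or all `nm P = nm q ^ 2`; and in the first case `e' f' g' = 2 e f g`, all `e'` are the same by LOC or
`ramificationIdx_eq_of_isGaloisGroup`). `τ = 1`: `f' = f, g' = 2 g`; `τ = -1`: `f' = 2 f, g' = g`; `τ = 0`: `f' = f, g' = g`. Cancel `(1 - X^f)^g ≠ 0` for all but finitely many `X` and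
use that two polynomials in `X` which agree at infinitely many points are equal. -/
def TOW_stmt : Prop := ∀ (F k K : Type) [Field F] [NumberField F] [Field k] [NumberField k] [Field K] [NumberField K]
  [Algebra F k] [Algebra k K] [Algebra F K] [IsScalarTower F k K] [IsAbelianGalois F k] [IsAbelianGalois F K]
  [Algebra.IsQuadraticExtension k K] (c : K ≃ₐ[F] K), c ≠ 1 → (∀ x : k, c (algebraMap k K x) = algebraMap k K x) →
  ∀ p : HOS F, ∃ f g : ℕ, 0 < f ∧ 0 < g ∧
    {q : HOS k | q.under (𝓞 F) = p}.ncard = g ∧ (∀ q : HOS k, q.under (𝓞 F) = p → nm q = nm p ^ f) ∧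
    ∃ τ : ℤ, (τ = 1 ∨ τ = -1 ∨ τ = 0) ∧ (∀ q : HOS k, q.under (𝓞 F) = p → ty K q = τ) ∧
    ∀ X : ℂ, ∏ χ ∈ odd c, (1 - chv χ p * X) = (1 - (τ : ℂ) * X ^ f) ^ g

/-! ### Euler products -/

/-- ROW rb:EUL (from DZS; the Euler product of the Dedekind zeta function). `∑_P N P^(-σ)` is a part of the sum over all ideals (DZS). For a finite set `A` of primes, `∏_{P ∈ A} (1 - N P^{-s})⁻¹ = ∑ N(I)^{-s}` over the ideals
which are products of primes in `A` (unique factorisation; induction on `A` or `Summable.tsum_mul_tsum...`), and these sets exhaust all nonzero ideals, so the partial products converge to the full sum. -/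
def EUL_stmt : Prop := ∀ (K : Type) [Field K] [NumberField K] (s : ℂ), 1 < s.re →
  Summable (fun P : HOS K => ‖(nm P : ℂ) ^ (-s)‖) ∧
  HasProd (fun P : HOS K => (1 - (nm P : ℂ) ^ (-s))⁻¹) (dedekindZeta K s)

/-- ROW rb:CNV (from EUL; convergence). `‖a‖ ≤ 1`, `N P ≥ 2`, so `‖(1 - a N P^{-s})⁻¹ - 1‖ ≤ 2^… N P^{-σ}`: `Complex.multipliable_one_add_of_summable` or the like. -/
def CNV_stmt : Prop := ∀ (K : Type) [Field K] [NumberField K] (s : ℂ), 1 < s.re → ∀ a : HOS K → ℂ, (∀ P, ‖a P‖ ≤ 1) →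
  Multipliable (fun P : HOS K => (1 - a P * (nm P : ℂ) ^ (-s))⁻¹)

/-- ROW rb:ZPR (from CHV, LOC, EUL, CNV; `ζ_L = ∏_χ L(χ)`). Group the Euler product of `ζ_L` by the prime below (`HasProd.sigma` or `Equiv.sigmaFiberEquiv`), the finite inner product is `(1 - N p^{-f s})^{-g} = ∏_χ (1 - chv χ p N p^{-s})⁻¹` by LOC
(`X = N p^{-s}`, `(N p ^ f : ℂ)^(-s) = X^f`), and exchange with the finite product over `χ` (CNV; `Multipliable.tprod_finsetProd` or the like). -/
def ZPR_stmt : Prop := ∀ (F L : Type) [Field F] [NumberField F] [Field L] [NumberField L] [Algebra F L]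
  [IsAbelianGalois F L] (s : ℂ), 1 < s.re → dedekindZeta L s = ∏ χ : (L ≃ₐ[F] L) →* ℂˣ, LE χ s

/-- ROW rb:ZRT (from INF, ZPR; the odd part). The even characters are the inflations of the characters of `k/F` (see TOW), `LE` of an inflation is the same by INF. -/
def ZRT_stmt : Prop := ∀ (F k K : Type) [Field F] [NumberField F] [Field k] [NumberField k] [Field K] [NumberField K]
  [Algebra F k] [Algebra k K] [Algebra F K] [IsScalarTower F k K] [IsAbelianGalois F k] [IsAbelianGalois F K]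
  [Algebra.IsQuadraticExtension k K] (c : K ≃ₐ[F] K), c ≠ 1 → (∀ x : k, c (algebraMap k K x) = algebraMap k K x) →
  ∀ s : ℂ, 1 < s.re → dedekindZeta K s = (∏ χ ∈ odd c, LE χ s) * dedekindZeta k s

/-- ROW rb:VAL (from FE; the value at 0). `n' = [k : ℚ]`; `K` has `n'` complex places, `k` has `n'` real places (`InfinitePlace.card_add_two_mul_card_eq_rank`). `Ga K = Gammaℂ^{n'}`, `Ga k = Gammaℝ^{n'}`, `Gammaℂ s = Gammaℝ s Gammaℝ (s+1)`
(`Complex.Gammaℝ_mul_Gammaℝ_add_one`). `L_K`, `L_k` from FE. `B s = A s |d_K/d_k|^{s/2} Gammaℝ(s+1)^{n'}` is analytic on `U = {Re s > -1} \ {0, 1}` (connected) and `L_K = L_k B` there (identity theorem). With `s > 1` real, `s → 1`: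
`(s-1) L_K s → |d_K|^{1/2} Gammaℂ(1)^{n'} ρ_K` (`tendsto_sub_one_mul_dedekindZeta_nhdsGT`), so for `s < 0` real, `s → 0`: `-s L_K(s) = ((1-s) - 1) L_K(1-s) →` the same; similarly for `k`.
`B` is continuous at 0 and `Gammaℝ 1 = 1`, so `A 0 = B 0 = |d_K/d_k|^{1/2} Gammaℂ(1)^{n'} ρ_K/ρ_k`, `Gammaℂ 1 = π⁻¹`, and the residues are `dedekindZeta_residue_def`. The regulators:
`IsCMField.regulator_div_regulator_eq_two_pow_mul_indexRealUnits_inv` (`rank K = n' - 1`), for `K⁺ = maximalRealSubfield K`, `k ≃ K⁺` by `CMExtension.equivMaximalRealSubfield` (class number, regulator and discriminant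
are invariant under isomorphisms: `classNumber_eq..`, `regulator_eq..`, or prove them; or transport `dedekindZeta k = dedekindZeta K⁺` first and do everything with `K⁺`, then only the class number must be transported). `torsionOrder k = 2`. -/
def VAL_stmt : Prop := ∀ (k K : Type) [Field k] [NumberField k] [Field K] [NumberField K] [Algebra k K]
  [Algebra.IsQuadraticExtension k K] [IsTotallyReal k] [IsCMField K] (A : ℂ → ℂ), DifferentiableOn ℂ A {1}ᶜ →
  (∀ s : ℂ, 1 < s.re → dedekindZeta K s = A s * dedekindZeta k s) →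
  A 0 * ((classNumber k : ℂ) * (IsCMField.indexRealUnits K : ℂ) * (Units.torsionOrder K : ℂ)) =
    2 ^ finrank ℚ k * (classNumber K : ℂ)

/-- ROW rb:PRD (from TOW, ZRT, VAL; the product of the values `L_{S,T}(χ, 0)` over the odd characters). `∏_{χ odd} Lf χ` satisfies the hypotheses of VAL by ZRT. The factor of `p ∈ T` is `(1 - τ N p^f)^g = ∏_{q | p} (1 - ty q N q)` by TOW at `X = N p`,
and `1 - ty q N q = ± (N q - ty q)` as `ty q = ± 1`. The factor of `p ∈ S` is `(1 - τ)^g` (TOW at `X = 1`), an integer; it is 0 or even if `τ ≠ 0`; and if `τ = 0` then there is `q` with `ty q = 0`, so `2^t` is even (the set of such `q` is finite: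
they are ramified; finiteness can be taken from the different or the discriminant, e.g. `q 𝓞 K = P²` implies `P` divides `differentIdeal (𝓞 k) (𝓞 K)`). -/
def PRD_stmt : Prop := ∀ (F k K : Type) [Field F] [NumberField F] [Field k] [NumberField k] [Field K] [NumberField K]
  [Algebra F k] [Algebra k K] [Algebra F K] [IsScalarTower F k K] [IsAbelianGalois F k] [IsAbelianGalois F K]
  [Algebra.IsQuadraticExtension k K] [IsTotallyReal k] [IsCMField K]
  (c : K ≃ₐ[F] K), c ≠ 1 → (∀ x : k, c (algebraMap k K x) = algebraMap k K x) →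
  ∀ (Lf : ((K ≃ₐ[F] K) →* ℂˣ) → ℂ → ℂ), isL Lf → ∀ (S T : Finset (HOS F)) (Tk : Finset (HOS k)),
  (∀ q, q ∈ Tk ↔ q.under (𝓞 F) ∈ T) → (∀ q ∈ Tk, ty K q ≠ 0) →
  {q : HOS k | ty K q = 0}.Finite ∧
  ∃ z : ℤ, (if S = ∅ then 2 else 1 : ℂ) * 2 ^ {q : HOS k | ty K q = 0}.ncard *
      ((classNumber k : ℂ) * (IsCMField.indexRealUnits K : ℂ) * (Units.torsionOrder K : ℂ)) *
      ∏ χ ∈ odd c, LST Lf S T χ =
    2 * (z : ℂ) * 2 ^ finrank ℚ k * (classNumber K : ℂ) * ∏ q ∈ Tk, ((nm q : ℂ) - (ty K q : ℂ))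

end Pool.Agent.RB
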