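import Pool.Agent.helper91.RB.Spec3

/-!
# Project rb (MP_24e2e7_nt). Block 4: algebra over the group ring

RULES as in `Spec1.lean`. No number theory here except cyclotomic integers of 2-power order. `G` is a finite commutative group, `c ∈ G`, `c * c = 1`. `evQ ψ`, `evZ ψ` are the ring homomorphisms
`ℚ[G] → ℂ`, `ℤ[G] → ℂ` given by a character, `zq : ℤ[G] → ℚ[G]`. `Psi B c`: the characters trivial on `B` with `ψ c = -1`. `Elat B c`: the elements `y` of `ℤ[G]` with `b y = y` (`b ∈ B`) and `c y = -y`.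
`DT f : ⋀^r N → R` is the determinant map `u_1 ∧ ... ∧ u_r ↦ det (f_i (u_j))`. The result of the block is `CHI_stmt` and `COE_stmt`.
-/

set_option autoImplicit false

namespace Pool.Agent.RB

open Module
open scoped Classical

section defs

/-- evaluation of the rational group ring at a character -/
noncomputable def evQ {G : Type} [Group G] (ψ : G →* ℂˣ) : MonoidAlgebra ℚ G →+* ℂ :=
  (MonoidAlgebra.lift ℚ ℂ G ((Units.coeHom ℂ).comp ψ) : MonoidAlgebra ℚ G →ₐ[ℚ] ℂ).toRingHom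

/-- evaluation of the integral group ring at a character -/
noncomputable def evZ {G : Type} [Group G] (ψ : G →* ℂˣ) : MonoidAlgebra ℤ G →+* ℂ :=
  (MonoidAlgebra.lift ℤ ℂ G ((Units.coeHom ℂ).comp ψ) : MonoidAlgebra ℤ G →ₐ[ℤ] ℂ).toRingHom

/-- evaluation of the complex group ring at a character -/
noncomputable def evC {G : Type} [Group G] (ψ : G →* ℂˣ) : MonoidAlgebra ℂ G →+* ℂ :=
  (MonoidAlgebra.lift ℂ ℂ G ((Units.coeHom ℂ).comp ψ) : MonoidAlgebra ℂ G →ₐ[ℂ] ℂ).toRingHom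

/-- the inclusion `ℤ[G] → ℚ[G]` -/
noncomputable def zq {G : Type} [Group G] : MonoidAlgebra ℤ G →+* MonoidAlgebra ℚ G :=
  MonoidAlgebra.mapRingHom G (Int.castRingHom ℚ)

/-- the inclusion `ℤ[G] → ℂ[G]` -/
noncomputable def zc {G : Type} [Group G] : MonoidAlgebra ℤ G →+* MonoidAlgebra ℂ G :=
  MonoidAlgebra.mapRingHom G (Int.castRingHom ℂ)

/-- the odd characters trivial on `B` -/
noncomputable def Psi {G : Type} [Group G] [Finite G] (B : Subgroup G) (c : G) : Finset (G →* ℂˣ) :=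
  Finset.univ.filter (fun ψ => (∀ b ∈ B, ψ b = 1) ∧ ψ c = -1)

/-- the `B`-invariant, `c`-anti-invariant elements of `ℤ[G]` -/
def Elat {G : Type} [Group G] (B : Subgroup G) (c : G) : AddSubgroup (MonoidAlgebra ℤ G) where
  carrier := {y | (∀ b ∈ B, MonoidAlgebra.single b 1 * y = y) ∧ MonoidAlgebra.single c 1 * y = -y}
  zero_mem' := ⟨fun b _ => by simp, by simp⟩
  add_mem' := by
    rintro x y ⟨h1, h2⟩ ⟨h3, h4⟩
    exact ⟨fun b hb => by rw [mul_add, h1 b hb, h3 b hb], by rw [mul_add, h2, h4, neg_add]⟩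
  neg_mem' := by
    rintro x ⟨h1, h2⟩
    exact ⟨fun b hb => by rw [mul_neg, h1 b hb], by rw [mul_neg, h2]⟩

/-- the same over `ℂ` -/
def EC {G : Type} [Group G] (B : Subgroup G) (c : G) : Submodule ℂ (MonoidAlgebra ℂ G) where
  carrier := {y | (∀ b ∈ B, MonoidAlgebra.single b 1 * y = y) ∧ MonoidAlgebra.single c 1 * y = -y}
  zero_mem' := ⟨fun b _ => by simp, by simp⟩
  add_mem' := by
    rintro x y ⟨h1, h2⟩ ⟨h3, h4⟩
    exact ⟨fun b hb => by rw [mul_add, h1 b hb, h3 b hb], by rw [mul_add, h2, h4, neg_add]⟩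
  smul_mem' := by
    rintro a x ⟨h1, h2⟩
    exact ⟨fun b hb => by rw [mul_smul_comm, h1 b hb], by rw [mul_smul_comm, h2, smul_neg]⟩

/-- the determinant map on the exterior power: `DT f (u_1 ∧ ... ∧ u_r) = det (f_i (u_j))` -/
noncomputable def DT {R N : Type} [CommRing R] [AddCommGroup N] [Module R N] {r : ℕ}
    (f : Fin r → N →ₗ[R] R) : ⋀[R]^r N →ₗ[R] R :=
  exteriorPower.alternatingMapLinearEquiv
    ((Matrix.detRowAlternating (n := Fin r) (R := R)).compLinearMap (LinearMap.pi f))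

/-- the minus part of a module over the group ring -/
def Wm {G : Type} [CommGroup G] (c : G) (W : Type) [AddCommGroup W] [Module (MonoidAlgebra ℚ G) W] :
    Submodule (MonoidAlgebra ℚ G) W where
  carrier := {w | (MonoidAlgebra.single c 1 : MonoidAlgebra ℚ G) • w = -w}
  zero_mem' := by simp
  add_mem' := by
    intro a b ha hb
    have h1 : (MonoidAlgebra.single c 1 : MonoidAlgebra ℚ G) • a = -a := ha
    have h2 : (MonoidAlgebra.single c 1 : MonoidAlgebra ℚ G) • b = -b := hb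
    show (MonoidAlgebra.single c 1 : MonoidAlgebra ℚ G) • (a + b) = -(a + b)
    rw [smul_add, h1, h2, neg_add]
  smul_mem' := by
    intro t a ha
    have h1 : (MonoidAlgebra.single c 1 : MonoidAlgebra ℚ G) • a = -a := ha
    show (MonoidAlgebra.single c 1 : MonoidAlgebra ℚ G) • (t • a) = -(t • a)
    rw [smul_smul, mul_comm, ← smul_smul, h1, smul_neg]

end defs

/-! ### Determinants -/

/-- ROW rb:LDT (lattices). `N` = the `ℤ`-span of the basis `b`. `M` is free with a `ℤ`-basis `a` indexed by `ι` (finite index), `a = b A` with `A` an integral matrix, `|det A| = [N : M]` (`Int.natAbs_det_basis_change`, `Submodule.natAbs_det_equiv` or the like, or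
Smith normal form), and `Φ a = b C` with `C` integral, so `det Φ det A = det C`. -/
def LDT_stmt : Prop := ∀ (ι : Type) [Fintype ι] [DecidableEq ι] (V : Type) [AddCommGroup V] [Module ℂ V] (b : Basis ι ℂ V)
  (M : AddSubgroup V) (Φ : V →ₗ[ℂ] V), M ≤ AddSubgroup.closure (Set.range b) →
  M.relIndex (AddSubgroup.closure (Set.range b)) ≠ 0 → (∀ v ∈ M, Φ v ∈ AddSubgroup.closure (Set.range b)) →
  ∃ z : ℤ, (M.relIndex (AddSubgroup.closure (Set.range b)) : ℂ) * LinearMap.det Φ = (z : ℂ)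

/-- ROW rb:MDT (multiplication by a matrix over the group ring). `EC B c` has the basis `e_ψ = ∑_σ ψ(σ)⁻¹ σ`, `ψ ∈ Psi B c` (`y e_ψ = ψ(y) e_ψ`; `b e_ψ = ψ(b) e_ψ`; every `y = (1/|G|) ∑_ψ ψ(y) e_ψ`, all `ψ`, and for `y ∈ EC B c` only the `ψ ∈ Psi B c` have `ψ(y) ≠ 0`; linear independence: orthogonality of characters).
In the basis `(e_ψ` at place `j)` the matrix of `Φ` is block diagonal with the blocks `ψ(A)`: `Matrix.det_blockDiagonal`, `LinearMap.det_toMatrix`. -/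
def MDT_stmt : Prop := ∀ (G : Type) [CommGroup G] [Finite G] (B : Subgroup G) (c : G), c * c = 1 →
  ∀ (r : ℕ) (A : Matrix (Fin r) (Fin r) (MonoidAlgebra ℂ G)) (Φ : (Fin r → EC B c) →ₗ[ℂ] (Fin r → EC B c)),
  (∀ (y : Fin r → EC B c) (i : Fin r), ((Φ y i : EC B c) : MonoidAlgebra ℂ G) =
    ∑ j, A i j * ((y j : EC B c) : MonoidAlgebra ℂ G)) →
  LinearMap.det Φ = ∏ ψ ∈ Psi B c, Matrix.det (fun i j => evC ψ (A i j))

/-- ROW rb:EBS (an integral basis). `c ∉ B`, `c * c = 1`. Choose representatives `g_i` of `G / (B ∪ c B)`; the elements `b_i = ∑_{b ∈ B} (b g_i - c b g_i)` are a `ℤ`-basis of `Elat B c` and a `ℂ`-basis of `EC B c` (the coefficient function of `y` is constant on the cosets of `B` and changes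
sign under `c`, so it is determined by its values at the `g_i`, and these are arbitrary). -/
def EBS_stmt : Prop := ∀ (G : Type) [CommGroup G] [Finite G] (B : Subgroup G) (c : G), c * c = 1 → c ∉ B →
  ∃ (ι : Type) (_ : Fintype ι) (b : Basis ι ℂ (EC B c)), ∀ y : EC B c,
    y ∈ AddSubgroup.closure (Set.range b) ↔ ∃ x ∈ Elat B c, zc x = (y : MonoidAlgebra ℂ G)

/-- ROW rb:DET (from LDT, MDT, EBS). `s g` are additive maps (the action of `g`), `M` a subgroup stable under them, `β` injective on `M` with values in `Elat`, `I = [Elat^r : β(M)]` finite.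
For `a = ∑ a_g g ∈ ℤ[G]` put `a x = ∑ a_g s_g(x)`; `β_j(a x) = a β_j(x)`, the same for `φ`. `ε = ∑_{b ∈ B} b (1 - c) ∈ Elat`, `ε y = 2 |B| y` for `y ∈ Elat`. As `I` kills `Elat^r / β(M)`, there are `x_j ∈ M` with `β_i(x_j) = δ_ij e`, `e = I ε`; `ψ(e) = 2 |B| I` for `ψ ∈ Psi B c`.
For `x ∈ M`: `e x = ∑_j β_j(x) x_j` (apply `β`, injective on `M`), so `e φ_i(x) = ∑_j β_j(x) φ_i(x_j)`. The same injectivity gives `s_b x = x`, `s_c x = -x`, so `φ_i(x) ∈ Elat`, and `φ_i(x) = ∑_j A_ij β_j(x)` in `ℂ[G]` with `A_ij = φ_i(x_j) / (2 |B| I)`. So the multiplication `Φ` by the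
matrix `A` on `EC^r` maps the lattice `β(M)` into `Elat^r`; LDT (basis of `EC^r` from EBS) and MDT: `I ∏_ψ det (ψ(φ_i(x_j)) / (2 |B| I))` is an integer. -/
def DET_stmt : Prop := ∀ (G : Type) [CommGroup G] [Finite G] (B : Subgroup G) (c : G), c * c = 1 → c ∉ B →
  ∀ (U : Type) [AddCommGroup U] (s : G → U →+ U) (M : AddSubgroup U) (r : ℕ) (β : Fin r → U →+ MonoidAlgebra ℤ G),
  (∀ g, ∀ u ∈ M, s g u ∈ M) → (∀ j g u, β j (s g u) = MonoidAlgebra.single g 1 * β j u) →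
  (∀ j, ∀ u ∈ M, β j u ∈ Elat B c) → (∀ u ∈ M, (∀ j, β j u = 0) → u = 0) →
  (M.map (AddMonoidHom.pi β)).relIndex (AddSubgroup.pi Set.univ (fun _ : Fin r => Elat B c)) ≠ 0 →
  ∃ (x : Fin r → U) (e : MonoidAlgebra ℤ G), (∀ j, x j ∈ M) ∧ (∀ i j, β i (x j) = if i = j then e else 0) ∧
    (∀ ψ ∈ Psi B c, evZ ψ e ≠ 0) ∧
    ∀ φ : Fin r → U →+ MonoidAlgebra ℤ G, (∀ i g u, φ i (s g u) = MonoidAlgebra.single g 1 * φ i u) →
    ∃ z : ℤ, ((M.map (AddMonoidHom.pi β)).relIndex (AddSubgroup.pi Set.univ (fun _ : Fin r => Elat B c)) : ℂ) *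
      ∏ ψ ∈ Psi B c, Matrix.det (fun i j => evZ ψ (φ i (x j))) = (z : ℂ) * ∏ ψ ∈ Psi B c, (evZ ψ e) ^ r

/-- ROW rb:RAT (the exterior power). For `w ∈ N`: `e w - ∑_j o_j(w) x_j` is killed by all `o_i`, so it is 0. Hence `e f_i(w) = ∑_j o_j(w) f_i(x_j)` and, taking determinants, `e^r DT f (w_1 ∧ ... ∧ w_r) = det (f_i(x_j)) DT o (w_1 ∧ ... ∧ w_r)`. Both sides are linear in `u`, and the
`exteriorPower.ιMulti` span (`exteriorPower.ιMulti_span`, or `exteriorPower.linearMap_ext`). -/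
def RAT_stmt : Prop := ∀ (R N : Type) [CommRing R] [AddCommGroup N] [Module R N] (r : ℕ) (o f : Fin r → N →ₗ[R] R)
  (x : Fin r → N) (e : R), (∀ i j, o i (x j) = if i = j then e else 0) → (∀ w, (∀ i, o i w = 0) → w = 0) →
  ∀ u : ⋀[R]^r N, e ^ r * DT f u = Matrix.det (fun i j => f i (x j)) * DT o u

/-! ### Cyclotomic integers of 2-power order -/

/-- ROW rb:CY2 (norms and integrality at 2). Let `K₀ = ℚ(ζ)` (`CyclotomicField (2^a) ℚ`, or `ℚ⟮ζ⟯ ⊂ ℂ`), `α = p(ζ)`, `z = N(α)` (product over the conjugates `ζ^j`, `j` odd). In `O = ℤ[ζ]` the element `π = 1 - ζ` is prime of norm 2 and `2 = unit * π^(2^(a-1))`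
(`IsPrimitiveRoot` lemmas in `Mathlib/NumberTheory/NumberField/Cyclotomic`). If `α ≠ 0`, write `α = π^k β / d`, `β ∈ O` not divisible by `π`, `d` an odd integer, `k ∈ ℤ` (multiply `α` by an integer `2^l d` to make it integral; `2 ~ π^(2^(a-1))`; divide by the exact power of `π`).
`N β` is odd: `O/π = F_2` and `β ≡ 1` mod `π`, all conjugates of `π` are associated to `π`, so all conjugates of `β` are `≡ 1` mod `π`, so `N β - 1 ∈ π ∩ ℤ = 2 ℤ`. So `±2^k N β = z d^(...)`: `k ≥ 0` as `N β` is odd and `z d^(...)` an integer. Hence `d α` is integral. -/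
def CY2_stmt : Prop := ∀ (a : ℕ) (ζ : ℂ), 1 ≤ a → IsPrimitiveRoot ζ (2 ^ a) → ∀ (p : Polynomial ℚ) (z : ℤ),
  ∏ j ∈ (Finset.range (2 ^ a)).filter (fun j => Odd j), Polynomial.aeval (ζ ^ j) p = (z : ℂ) →
  ∃ d : ℕ, Odd d ∧ IsIntegral ℤ ((d : ℂ) * Polynomial.aeval ζ p)

/-- ROW rb:VL2 (from CY2). `|G|` a power of 2, `χ c = -1`, `B = ker χ`; the image of `χ` is cyclic of order `2^a`, `a ≥ 1`; choose `s₀` with `χ s₀ = ζ` a generator. The characters trivial on `B` are determined by the value at `s₀`, `ψ s₀ = ζ^j`, and every `j` occurs (`ψ = χ^j`), `ψ c = (-1)^j` (`χ^j c = (-1)^j`).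
So `Psi B c = {χ^j : j < 2^a odd}`. With `p = (2^δ/2^n) ∑_σ y_σ X^{i(σ)}`, `χ σ = ζ^{i(σ)}`: `χ^j(y) 2^δ/2^n = p(ζ^j)` and the product is `2^{δ (#Psi - 1)} z`, an integer (`#Psi ≥ 1`). -/
def VL2_stmt : Prop := ∀ (G : Type) [CommGroup G] [Finite G] (m : ℕ), Nat.card G = 2 ^ m → ∀ (c : G) (χ : G →* ℂˣ), χ c = -1 →
  ∀ (y : MonoidAlgebra ℚ G) (δ n : ℕ) (z : ℤ),
  2 ^ δ * ∏ ψ ∈ Psi χ.ker c, evQ ψ y = (2 ^ n) ^ (Psi χ.ker c).card * (z : ℂ) →
  ∃ d : ℕ, Odd d ∧ IsIntegral ℤ ((d : ℂ) * (2 ^ δ * evQ χ y / 2 ^ n))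

/-- ROW rb:CO1 (orthogonality). `g₀` of order `2^(h+1)`, `c = g₀^(2^h)`, `ζ` of order `2^(h+1)`. The sum over the characters `χ` with `χ g₀ = ζ`. `∑_χ χ(y) χ(σ)⁻¹ = ∑_τ y_τ ∑_χ χ(τ σ⁻¹)`; the inner sum is 0 unless `τ σ⁻¹ ∈ ⟨g₀⟩`, and `ζ^i |G| / 2^(h+1)` for `τ = σ g₀^i` (the
characters with `χ g₀ = ζ` are a coset of the characters of `G / ⟨g₀⟩`). The terms `i` and `i + 2^h` are equal (`y_{c τ} = - y_τ`, `ζ^(2^h) = -1`). -/
def CO1_stmt : Prop := ∀ (G : Type) [CommGroup G] [Finite G] (h : ℕ) (g₀ : G), orderOf g₀ = 2 ^ (h + 1) →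
  ∀ ζ : ℂˣ, orderOf ζ = 2 ^ (h + 1) → ∀ y : MonoidAlgebra ℚ G,
  MonoidAlgebra.single (g₀ ^ 2 ^ h) 1 * y = -y → ∀ σ : G,
  2 ^ (h + 1) * ∑ χ ∈ Finset.univ.filter (fun χ : G →* ℂˣ => χ g₀ = ζ), evQ χ y * ((χ σ)⁻¹ : ℂˣ) =
    (Nat.card G : ℂ) * (2 * ∑ i ∈ Finset.range (2 ^ h), ((y.coeff (σ * g₀ ^ i) : ℚ) : ℂ) * (ζ : ℂ) ^ i)

/-- ROW rb:CO2 (the integral basis of `ℤ[ζ]`). `1, ζ, ..., ζ^(2^h - 1)` is a basis of the ring of integers of `ℚ(ζ)` (`IsPrimitiveRoot.integralPowerBasis`, `IsCyclotomicExtension.Rat.isIntegralClosure_adjoin_singleton_of_prime_pow`), and a `ℚ`-basis of `ℚ(ζ)`. -/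
def CO2_stmt : Prop := ∀ (h : ℕ) (ζ : ℂ), IsPrimitiveRoot ζ (2 ^ (h + 1)) → ∀ q : ℕ → ℚ,
  IsIntegral ℤ (∑ i ∈ Finset.range (2 ^ h), ((q i : ℚ) : ℂ) * ζ ^ i) → ∀ i < 2 ^ h, ∃ z : ℤ, q i = z

/-- ROW rb:COE (from CO1, CO2; the coefficients). `g₀` has order `2^(h+1)`. The characters with `χ g₀ = ζ` are odd. Let `d` be the product of the odd numbers for all of them. By CO1, `(|G| 2 / 2^(h+1)) d 2^δ / 2^n ∑_i y_{σ g₀^i} ζ^i` is an algebraic integer (a root of unity times an algebraic integer is one), `|G| 2 / 2^(h+1) = 2^(m - h)`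
(`h + 1 ≤ m`). Multiply by a further power of 2 if `m + δ < h + n` and use CO2 with `q i = d 2^(m + δ - (h + n)) y_{σ g₀^i}`, then `i = 0`. -/
def COE_stmt : Prop := ∀ (G : Type) [CommGroup G] [Finite G] (m h : ℕ) (g₀ c : G), Nat.card G = 2 ^ m → c = g₀ ^ 2 ^ h → c ≠ 1 → c * c = 1 →
  ∀ (y : MonoidAlgebra ℚ G) (δ n : ℕ), MonoidAlgebra.single c 1 * y = -y →
  (∀ χ : G →* ℂˣ, χ c = -1 → ∃ d : ℕ, Odd d ∧ IsIntegral ℤ ((d : ℂ) * (2 ^ δ * evQ χ y / 2 ^ n))) →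
  ∃ d : ℕ, Odd d ∧ ∀ σ : G, ∃ z : ℤ, (d : ℚ) * 2 ^ (m + δ - (h + n)) * y.coeff σ = z

/-- ROW rb:CHI (from DET, RAT, VL2; one character). DET with `B = ker χ`, `φ_i` with `f_i(ι u) = zq (φ_i u)`. RAT for `R = ℚ[G]`, `N = Wm c W`, the restrictions of `o`, `f`, the elements `ι(x_j)` (they are in `Wm`: `o_i(c ι(x_j) + ι(x_j)) = (c + 1) β_i(x_j) = 0`; careful: apply the injectivity of `β` on `M` to
`s_c x_j + x_j ∈ M` to see `s_c x_j = -x_j`) and `zq e`: `(zq e)^r DT f u = det (f_i(ι x_j)) Θ`. Apply `evQ ψ` for `ψ ∈ Psi B c`, multiply over `ψ`: `∏ ψ(e)^r ∏ ψ(DT f u) = ∏ det (ψ φ_i(x_j)) ∏ ψ(Θ)`. Multiply by `I`, use the last clause of DET, cancel `∏ ψ(e)^r`: `I ∏ ψ(DT f u) = z ∏ ψ(Θ)`;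
multiply by `2^δ` and use the hypothesis on `Θ`, cancel `I`. Then VL2. -/
def CHI_stmt : Prop := ∀ (G : Type) [CommGroup G] [Finite G] (m : ℕ) (c : G), Nat.card G = 2 ^ m → c * c = 1 →
  ∀ χ : G →* ℂˣ, χ c = -1 →
  ∀ (U : Type) [AddCommGroup U] (s : G → U →+ U) (M : AddSubgroup U) (r : ℕ) (β φ : Fin r → U →+ MonoidAlgebra ℤ G),
  (∀ g, ∀ u ∈ M, s g u ∈ M) → (∀ j g u, β j (s g u) = MonoidAlgebra.single g 1 * β j u) →
  (∀ j g u, φ j (s g u) = MonoidAlgebra.single g 1 * φ j u) →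
  (∀ j, ∀ u ∈ M, β j u ∈ Elat χ.ker c) → (∀ u ∈ M, (∀ j, β j u = 0) → u = 0) →
  (M.map (AddMonoidHom.pi β)).relIndex (AddSubgroup.pi Set.univ (fun _ : Fin r => Elat χ.ker c)) ≠ 0 →
  ∀ (W : Type) [AddCommGroup W] [Module (MonoidAlgebra ℚ G) W] (ι : U →+ W) (o f : Fin r → W →ₗ[MonoidAlgebra ℚ G] MonoidAlgebra ℚ G),
  (∀ g u, ι (s g u) = (MonoidAlgebra.single g 1 : MonoidAlgebra ℚ G) • ι u) →
  (∀ j u, o j (ι u) = zq (β j u)) → (∀ j u, f j (ι u) = zq (φ j u)) →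
  (∀ w : W, (MonoidAlgebra.single c 1 : MonoidAlgebra ℚ G) • w = -w → (∀ j, o j w = 0) → w = 0) →
  ∀ (u : ⋀[MonoidAlgebra ℚ G]^r (Wm c W)) (δ n : ℕ) (z : ℤ),
  2 ^ δ * ∏ ψ ∈ Psi χ.ker c, evQ ψ (DT (fun j => (o j).comp (Wm c W).subtype) u) =
    (2 ^ n) ^ (Psi χ.ker c).card * (z : ℂ) *
      ((M.map (AddMonoidHom.pi β)).relIndex (AddSubgroup.pi Set.univ (fun _ : Fin r => Elat χ.ker c)) : ℂ) →
  ∃ d : ℕ, Odd d ∧ IsIntegral ℤ ((d : ℂ) * (2 ^ δ * evQ χ (DT (fun j => (f j).comp (Wm c W).subtype) u) / 2 ^ n))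

end Pool.Agent.RB
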