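import Pool.Agent.helper91.RB.Spec4

/-!
# Project rb (MP_24e2e7_nt). Block 5: the final theorem

RULES as in `Spec1.lean`. `RData F H r` are the data of the problem, `Ut` is the group `U`, `isQU ι` says that `ι : U → W` is the map `U → ℚU = U ⊗ ℚ`, `RL` is Rubin's lattice. The final theorem is `RUB_stmt`.
For a character `χ` of `H/F` with `χ c = -1` we use the tower `F → k → K → H`, `K` = the fixed field of `ker χ`, `k = K⁺` (`TWR_stmt`); `res` below is `AlgEquiv.restrictNormalHom K`.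
-/

set_option autoImplicit false

namespace Pool.Agent.RB

open NumberField IsDedekindDomain Module
open scoped nonZeroDivisors Real Classical IsMulCommutative

section defs

/-- The data of the problem, for a CM field `H`, abelian over `F`: complex conjugation `c`, the finite sets `S` (finite places of `S`) and `T` of primes of `F` (disjoint, `S` contains the primes ramified in `H`, the only root of unity `≡ 1` modulo all primes above `T` is 1),
the primes `v_1, ..., v_r` of `F` (distinct, outside `S` and `T`, completely split in `H`), and primes `w_j` of `H` above `v_j`. -/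
structure RData (F H : Type) [Field F] [NumberField F] [Field H] [NumberField H] [Algebra F H] [IsCMField H]
    (r : ℕ) where
  /-- complex conjugation -/
  c : H ≃ₐ[F] H
  hc : ∀ x : H, c x = IsCMField.complexConj H x
  /-- the finite places in `S` -/
  S : Finset (HOS F)
  /-- the set `T` -/
  T : Finset (HOS F)
  hST : Disjoint S T
  hram : ∀ P : HOS H, P.under (𝓞 F) ∉ S → Algebra.IsUnramifiedAt (𝓞 F) P.asIdeal
  htor : ∀ ζ ∈ Units.torsion H, (∀ P : HOS H, P.under (𝓞 F) ∈ T →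
    P.valuation H (((ζ : (𝓞 H)ˣ) : H) - 1) < 1) → ζ = 1
  /-- the primes in `V` -/
  v : Fin r → HOS F
  hv : Function.Injective v
  hvS : ∀ j, v j ∉ S
  hvT : ∀ j, v j ∉ T
  hvs : ∀ j, {P : HOS H | P.under (𝓞 F) = v j}.ncard = finrank F H
  /-- a prime of `H` above each prime in `V` -/
  w : Fin r → HOS H
  hw : ∀ j, (w j).under (𝓞 F) = v j

/-- the group `U`: the `x` in `Hˣ` which are `≡ 1` modulo all primes above `T` and units at all primes not above `V` -/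
def Ut (F H : Type) [Field F] [NumberField F] [Field H] [NumberField H] [Algebra F H]
    (T V : Set (HOS F)) : Subgroup Hˣ where
  carrier := {x | (∀ P : HOS H, P.under (𝓞 F) ∈ T → P.valuation H ((x : H) - 1) < 1) ∧
    ∀ P : HOS H, P.under (𝓞 F) ∉ V → P.valuation H (x : H) = 1}
  one_mem' := ⟨fun P _ => by simp, fun P _ => by simp⟩
  mul_mem' := by
    rintro a b ⟨h1, h2⟩ ⟨h3, h4⟩
    refine ⟨fun P hP => ?_, fun P hP => by rw [Units.val_mul, map_mul, h2 P hP, h4 P hP, mul_one]⟩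
    have h7 : P.valuation H (b : H) ≤ 1 := by
      have : (b : H) = ((b : H) - 1) + 1 := by ring
      rw [this]
      exact (Valuation.map_add _ _ _).trans (max_le (h3 P hP).le (by simp))
    have h8 : ((a * b : Hˣ) : H) - 1 = ((a : H) - 1) * b + ((b : H) - 1) := by
      rw [Units.val_mul]; ring
    rw [h8]
    refine (Valuation.map_add _ _ _).trans_lt (max_lt ?_ (h3 P hP))
    rw [map_mul]
    exact mul_lt_one_of_lt_of_le (h1 P hP) h7
  inv_mem' := by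
    rintro a ⟨h1, h2⟩
    refine ⟨fun P hP => ?_, fun P hP => by rw [Units.val_inv_eq_inv_val, map_inv₀, h2 P hP, inv_one]⟩
    have h4 : P.valuation H (a : H) = 1 := by
      have h5 : (a : H) = 1 + ((a : H) - 1) := by ring
      rw [h5]
      refine (Valuation.map_add_eq_of_lt_left _ ?_).trans (by simp)
      rw [map_one]; exact h1 P hP
    have h8 : ((a⁻¹ : Hˣ) : H) - 1 = (1 - (a : H)) * (a : H)⁻¹ := by
      rw [Units.val_inv_eq_inv_val, sub_mul, one_mul, mul_inv_cancel₀ a.ne_zero]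
    rw [h8, map_mul, map_inv₀, h4, inv_one, mul_one, ← neg_sub, Valuation.map_neg]
    exact h1 P hP

/-- `∑_σ ord_w(σ x) σ⁻¹` -/
noncomputable def ordZ (F : Type) {H : Type} [Field F] [NumberField F] [Field H] [NumberField H] [Algebra F H]
    (w : HOS H) (x : H) : MonoidAlgebra ℤ (H ≃ₐ[F] H) :=
  ∑ σ : H ≃ₐ[F] H, MonoidAlgebra.single σ⁻¹ (ord w (σ x))

/-- `ι : U → W` is the map `U → ℚU = U ⊗ ℚ`: it is equivariant, every element of `W` has a nonzero integral multiple in the image, and the kernel is torsion -/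
structure isQU {F H : Type} [Field F] [NumberField F] [Field H] [NumberField H] [Algebra F H] (U : Subgroup Hˣ)
    {W : Type} [AddCommGroup W] [Module (MonoidAlgebra ℚ (H ≃ₐ[F] H)) W] (ι : Additive U →+ W) : Prop where
  equiv : ∀ (σ : H ≃ₐ[F] H) (x y : U), ((y : Hˣ) : H) = σ ((x : Hˣ) : H) →
    ι (Additive.ofMul y) = (MonoidAlgebra.single σ 1 : MonoidAlgebra ℚ (H ≃ₐ[F] H)) • ι (Additive.ofMul x)
  denom : ∀ w : W, ∃ (n : ℕ) (x : U), n ≠ 0 ∧ n • w = ι (Additive.ofMul x)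
  ker : ∀ x : U, ι (Additive.ofMul x) = 0 → ∃ n : ℕ, n ≠ 0 ∧ x ^ n = 1

/-- Rubin's lattice: the `u` in the exterior power of `ℚU^-` with `φ(u) ∈ ℤ[G]` for all `φ_1, ..., φ_r ∈ Hom_{ℤ[G]}(U, ℤ[G])` (given by their `ℚ[G]`-linear extensions `f_i : ℚU → ℚ[G]`) -/
def RL {F H : Type} [Field F] [NumberField F] [Field H] [NumberField H] [Algebra F H] [IsAbelianGalois F H] (c : H ≃ₐ[F] H)
    {U : Subgroup Hˣ} (W : Type) [AddCommGroup W] [Module (MonoidAlgebra ℚ (H ≃ₐ[F] H)) W] (ι : Additive U →+ W) (r : ℕ) :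
    Set (⋀[MonoidAlgebra ℚ (H ≃ₐ[F] H)]^r (Wm c W)) :=
  {u | ∀ f : Fin r → W →ₗ[MonoidAlgebra ℚ (H ≃ₐ[F] H)] MonoidAlgebra ℚ (H ≃ₐ[F] H),
    (∀ i x, ∃ y : MonoidAlgebra ℤ (H ≃ₐ[F] H), f i (ι x) = zq y) →
    ∃ y : MonoidAlgebra ℤ (H ≃ₐ[F] H), DT (fun j => (f j).comp (Wm c W).subtype) u = zq y}

/-- the element of `ℤ[G]` with the coefficient `D(τ w_K)` at `τ`, for a divisor `D` of `K` -/
noncomputable def bD (F : Type) {K H : Type} [Field F] [NumberField F] [Field K] [NumberField K] [Field H] [NumberField H]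
    [Algebra F K] [Algebra K H] [Algebra F H] [IsScalarTower F K H] [IsAbelianGalois F K]
    (w : HOS H) (D : Dv K) : MonoidAlgebra ℤ (H ≃ₐ[F] H) :=
  ∑ τ : H ≃ₐ[F] H, MonoidAlgebra.single τ
    (D (act ((AlgEquiv.restrictNormalHom K τ : K ≃ₐ[F] K) : K ≃+* K) (w.under (𝓞 K))))

end defs

/-! ### Primes in towers -/

/-- ROW rb:VLU (valuations in an extension `H/K`). `HeightOneSpectrum.valuation_liesOver` with `e = ramificationIdx' > 0`. Every prime of `K` has a prime above it. The image of a root of unity is a root of unity. -/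
def VLU_stmt : Prop := ∀ (K H : Type) [Field K] [NumberField K] [Field H] [NumberField H] [Algebra K H],
  (∀ P : HOS H, ∃ e : ℕ, 0 < e ∧ ∀ x : K, P.valuation H (algebraMap K H x) = (P.under (𝓞 K)).valuation K x ^ e ∧
    ord P (algebraMap K H x) = e * ord (P.under (𝓞 K)) x ∧
    (P.valuation H (algebraMap K H x) < 1 ↔ (P.under (𝓞 K)).valuation K x < 1) ∧
    (P.valuation H (algebraMap K H x) = 1 ↔ (P.under (𝓞 K)).valuation K x = 1)) ∧
  (∀ q : HOS K, ∃ P : HOS H, P.under (𝓞 K) = q) ∧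
  (∀ ζ ∈ Units.torsion K, ∃ ζ' ∈ Units.torsion H, ((ζ' : (𝓞 H)ˣ) : H) = algebraMap K H ((ζ : (𝓞 K)ˣ) : K)) ∧
  ∀ (F : Type) [Field F] [NumberField F] [Algebra F K] [Algebra F H] [IsScalarTower F K H] (P : HOS H),
    (P.under (𝓞 K)).under (𝓞 F) = P.under (𝓞 F)

/-- ROW rb:ARS (action and restriction). Compare membership: `x ∈ (act σ P).under` iff `σ⁻¹ x ∈ P` iff `(res σ)⁻¹ x ∈ P.under`. -/
def ARS_stmt : Prop := ∀ (F K H : Type) [Field F] [NumberField F] [Field K] [NumberField K] [Field H] [NumberField H]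
  [Algebra F K] [Algebra K H] [Algebra F H] [IsScalarTower F K H] [IsAbelianGalois F K] [IsAbelianGalois F H] (σ : H ≃ₐ[F] H) (P : HOS H),
  (act (σ : H ≃+* H) P).under (𝓞 K) =
    act ((AlgEquiv.restrictNormalHom K σ : K ≃ₐ[F] K) : K ≃+* K) (P.under (𝓞 K))

/-- ROW rb:SPL (from VLU, ARS; completely split primes). The group acts transitively on the primes above `v`; there are `|G|` of them, so stabilisers are trivial and `e = f = 1`. For `K`: if `ρ = res σ` fixes `w_K`, then `σ w` and `w` are above the same prime of `K`, so `σ w = b w` with `b` in the kernel of `res` (transitivity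
for `H/K`), `σ = b`, `ρ = 1`. `e(w / w_K) = 1` because `e(w / v) = 1` (`ramificationIdx` is multiplicative; or: VLU for `F → K → H`). -/
def SPL_stmt : Prop := ∀ (F H : Type) [Field F] [NumberField F] [Field H] [NumberField H] [Algebra F H] [IsAbelianGalois F H]
  (w : HOS H), {P : HOS H | P.under (𝓞 F) = w.under (𝓞 F)}.ncard = finrank F H →
  (∀ σ : H ≃ₐ[F] H, act (σ : H ≃+* H) w = w → σ = 1) ∧
  (∀ P : HOS H, P.under (𝓞 F) = w.under (𝓞 F) → ∃ σ : H ≃ₐ[F] H, act (σ : H ≃+* H) w = P) ∧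
  ∀ (K : Type) [Field K] [NumberField K] [Algebra F K] [Algebra K H] [IsScalarTower F K H] [IsAbelianGalois F K],
  (∀ ρ : K ≃ₐ[F] K, act (ρ : K ≃+* K) (w.under (𝓞 K)) = w.under (𝓞 K) → ρ = 1) ∧
  (∀ P : HOS K, P.under (𝓞 F) = w.under (𝓞 F) → ∃ ρ : K ≃ₐ[F] K, act (ρ : K ≃+* K) (w.under (𝓞 K)) = P) ∧
  ∀ x : K, ord w (algebraMap K H x) = ord (w.under (𝓞 K)) x

/-- ROW rb:ORZ (from ORD; properties of `ordZ`). Reindex the sum (`σ' = σ ρ`). The last clause: the coefficient of `ordZ F w x` at `σ⁻¹` is `ord w (σ x) = ord (act σ⁻¹ w) x`. -/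
def ORZ_stmt : Prop := ∀ (F H : Type) [Field F] [NumberField F] [Field H] [NumberField H] [Algebra F H] [IsAbelianGalois F H] (w : HOS H),
  (∀ x y : H, x ≠ 0 → y ≠ 0 → ordZ F w (x * y) = ordZ F w x + ordZ F w y) ∧ ordZ F w (1 : H) = 0 ∧
  (∀ x : H, ordZ F w x⁻¹ = - ordZ F w x) ∧
  (∀ (ρ : H ≃ₐ[F] H) (x : H), ordZ F w (ρ x) = MonoidAlgebra.single ρ 1 * ordZ F w x) ∧
  ∀ (x : H) (τ : H ≃ₐ[F] H), (ordZ F w x).coeff τ = ord (act (τ : H ≃+* H) w) x

/-- ROW rb:INJ (from ORD, SPL, ORZ; injectivity). `x c(x) = 1` and `ord_P x = 0` for all `P` (outside `V`: definition of `Ut`; above `v_j`: SPL and the last clause of ORZ), so `x` is a unit with all absolute values 1 (`complexEmbedding_complexConj`), a root of unity, and `= 1` by `htor`. -/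
def INJ_stmt : Prop := ∀ (F H : Type) [Field F] [NumberField F] [Field H] [NumberField H] [Algebra F H] [IsAbelianGalois F H] [IsCMField H]
  (r : ℕ) (D : RData F H r),
  (∀ x ∈ Ut F H (D.T : Set (HOS F)) (Set.range D.v), (x : H) * D.c x = 1 → (∀ j, ordZ F (D.w j) (x : H) = 0) → x = 1) ∧
  ∀ x ∈ Ut F H (D.T : Set (HOS F)) (Set.range D.v), ∀ n : ℕ, n ≠ 0 → x ^ n = 1 → x = 1

/-- ROW rb:BOR (from ORD, ARS, SPL). `ord w (σ x) = ord w_K (res σ x) = ord (act (res σ)⁻¹ w_K) x` for `x ∈ K`; reindex `τ = σ⁻¹`. -/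
def BOR_stmt : Prop := ∀ (F K H : Type) [Field F] [NumberField F] [Field K] [NumberField K] [Field H] [NumberField H]
  [Algebra F K] [Algebra K H] [Algebra F H] [IsScalarTower F K H] [IsAbelianGalois F K] [IsAbelianGalois F H] (w : HOS H),
  {P : HOS H | P.under (𝓞 F) = w.under (𝓞 F)}.ncard = finrank F H → ∀ (D : Dv K) (x : K), x ≠ 0 → (∀ P, D P = ord P x) →
  bD F w D = ordZ F w (algebraMap K H x)

/-- ROW rb:DVE (from ORD, VLU, SPL; divisors and group ring elements). The coefficient of `bD F w D` at `τ` is `D (res τ w_K)`. It depends only on `res τ`, and changes sign if `τ` is replaced by `c⁻¹ τ` (`res c` maps `D` to `-D`; `(single b 1 * y).coeff τ = y.coeff (b⁻¹ * τ)`). Conversely the primes above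
`v_j` are the `res τ (w_j)_K`, each for exactly one element `res τ` (SPL), so `D` is determined by the `bD F (w_j) D` and any `y_j ∈ Elat` occur (the `v_j` are distinct). -/
def DVE_stmt : Prop := ∀ (F K H : Type) [Field F] [NumberField F] [Field K] [NumberField K] [Field H] [NumberField H]
  [Algebra F K] [Algebra K H] [Algebra F H] [IsScalarTower F K H] [IsAbelianGalois F K] [IsAbelianGalois F H]
  (r : ℕ) (w : Fin r → HOS H), (∀ j, {P : HOS H | P.under (𝓞 F) = (w j).under (𝓞 F)}.ncard = finrank F H) →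
  (∀ i j, (w i).under (𝓞 F) = (w j).under (𝓞 F) → i = j) → ∀ c : H ≃ₐ[F] H, c * c = 1 →
  (∀ D ∈ DV ((AlgEquiv.restrictNormalHom K c : K ≃ₐ[F] K) : K ≃+* K) {P : HOS K | ∃ j, P.under (𝓞 F) = (w j).under (𝓞 F)}, ∀ j,
    bD F (w j) D ∈ Elat (AlgEquiv.restrictNormalHom K : (H ≃ₐ[F] H) →* (K ≃ₐ[F] K)).ker c) ∧
  (∀ y : Fin r → MonoidAlgebra ℤ (H ≃ₐ[F] H), (∀ j, y j ∈ Elat (AlgEquiv.restrictNormalHom K : (H ≃ₐ[F] H) →* (K ≃ₐ[F] K)).ker c) →
    ∃ D ∈ DV ((AlgEquiv.restrictNormalHom K c : K ≃ₐ[F] K) : K ≃+* K) {P : HOS K | ∃ j, P.under (𝓞 F) = (w j).under (𝓞 F)}, ∀ j, bD F (w j) D = y j) ∧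
  ∀ D ∈ DV ((AlgEquiv.restrictNormalHom K c : K ≃ₐ[F] K) : K ≃+* K) {P : HOS K | ∃ j, P.under (𝓞 F) = (w j).under (𝓞 F)},
    (∀ j, bD F (w j) D = 0) → D = 0

/-- ROW rb:IDM (from BOR, DVE; the two indices agree). By DVE `D ↦ (bD F (w_j) D)_j` is an isomorphism of `DV` with `Elat^r` (additive by definition), and by BOR it maps `dM` onto `N` (`D ∈ dM`, `D = div x`, `x ∈ Ml`; conversely every `x ∈ Ml` has a divisor, an element of `dM`: finite support, ORD). -/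
def IDM_stmt : Prop := ∀ (F K H : Type) [Field F] [NumberField F] [Field K] [NumberField K] [Field H] [NumberField H]
  [Algebra F K] [Algebra K H] [Algebra F H] [IsScalarTower F K H] [IsAbelianGalois F K] [IsAbelianGalois F H]
  (r : ℕ) (w : Fin r → HOS H), (∀ j, {P : HOS H | P.under (𝓞 F) = (w j).under (𝓞 F)}.ncard = finrank F H) →
  (∀ i j, (w i).under (𝓞 F) = (w j).under (𝓞 F) → i = j) → ∀ c : H ≃ₐ[F] H, c * c = 1 → ∀ T : Set (HOS K),
  dM ((AlgEquiv.restrictNormalHom K c : K ≃ₐ[F] K) : K ≃+* K) {P : HOS K | ∃ j, P.under (𝓞 F) = (w j).under (𝓞 F)} T ≤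
    DV ((AlgEquiv.restrictNormalHom K c : K ≃ₐ[F] K) : K ≃+* K) {P : HOS K | ∃ j, P.under (𝓞 F) = (w j).under (𝓞 F)} →
  ∀ N : AddSubgroup (Fin r → MonoidAlgebra ℤ (H ≃ₐ[F] H)),
  (∀ y, y ∈ N ↔ ∃ x ∈ Ml ((AlgEquiv.restrictNormalHom K c : K ≃ₐ[F] K) : K ≃+* K) {P : HOS K | ∃ j, P.under (𝓞 F) = (w j).under (𝓞 F)} T,
    ∀ j, y j = ordZ F (w j) (algebraMap K H (x : K))) →
  N.relIndex (AddSubgroup.pi Set.univ (fun _ : Fin r => Elat (AlgEquiv.restrictNormalHom K : (H ≃ₐ[F] H) →* (K ≃ₐ[F] K)).ker c)) =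
    (dM ((AlgEquiv.restrictNormalHom K c : K ≃ₐ[F] K) : K ≃+* K) {P : HOS K | ∃ j, P.under (𝓞 F) = (w j).under (𝓞 F)} T).relIndex
      (DV ((AlgEquiv.restrictNormalHom K c : K ≃ₐ[F] K) : K ≃+* K) {P : HOS K | ∃ j, P.under (𝓞 F) = (w j).under (𝓞 F)})

/-! ### The tower and the characters -/

/-- ROW rb:TWR (the tower). `K = IntermediateField.fixedField B`, `k = IntermediateField.fixedField (B ⊔ ⟨c⟩)` inside `H` (`Algebra k K` from the inclusion). The kernel of `res` is `B` (`IntermediateField.fixingSubgroup_fixedField`, `restrictNormalHom_ker`). `c ∉ B`, so `[K : k] = 2` and `c` acts nontrivially on `K` (`c² = 1`).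
`k` is totally real: it is fixed by `c`, and `φ (c x) = conj (φ x)` for every embedding `φ` of `H` (`IsCMField.complexEmbedding_complexConj`); every embedding of `k` extends to `H`. `K` is totally complex: an embedding of `K` extends to `φ` on `H`, and for `x ∈ K` with `c x ≠ x`: `conj (φ x) = φ (c x) ≠ φ x`. `K` is CM:
`IsCMField.ofCMExtension k K`. The number of characters of `G/B` with `ψ c = -1` is half of `|G/B| = [K : F]` (multiplication by one of them exchanges the two halves; there is one, because `c B ≠ B`), so it is `[k : F]`. -/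
def TWR_stmt : Prop := ∀ (F H : Type) [Field F] [NumberField F] [Field H] [NumberField H] [Algebra F H] [IsAbelianGalois F H] [IsTotallyReal F] [IsCMField H]
  (c : H ≃ₐ[F] H), (∀ x : H, c x = IsCMField.complexConj H x) → ∀ B : Subgroup (H ≃ₐ[F] H), c ∉ B →
  ∃ (k K : Type) (_ : Field k) (_ : NumberField k) (_ : Field K) (_ : NumberField K) (_ : Algebra F k) (_ : Algebra k K) (_ : Algebra F K)
    (_ : Algebra K H) (_ : IsScalarTower F k K) (_ : IsScalarTower F K H) (_ : IsAbelianGalois F k) (_ : IsAbelianGalois F K)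
    (_ : Algebra.IsQuadraticExtension k K) (_ : IsTotallyReal k) (_ : IsCMField K),
    (AlgEquiv.restrictNormalHom K : (H ≃ₐ[F] H) →* (K ≃ₐ[F] K)).ker = B ∧
    (∀ x : k, (AlgEquiv.restrictNormalHom K c : K ≃ₐ[F] K) (algebraMap k K x) = algebraMap k K x) ∧
    (AlgEquiv.restrictNormalHom K c : K ≃ₐ[F] K) ≠ 1 ∧ finrank ℚ k = finrank ℚ F * (Psi B c).card

/-- ROW rb:PSI (characters). The characters of `H/F` trivial on the kernel of `res` are the inflations (`res` is surjective). Second part: `ψ ↦ ψ⁻¹` permutes `Psi B c`. -/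
def PSI_stmt : Prop := ∀ (F K H : Type) [Field F] [NumberField F] [Field K] [NumberField K] [Field H] [NumberField H]
  [Algebra F K] [Algebra K H] [Algebra F H] [IsScalarTower F K H] [IsAbelianGalois F K] [IsAbelianGalois F H] (c : H ≃ₐ[F] H)
  (g : ((H ≃ₐ[F] H) →* ℂˣ) → ℂ),
  ∏ ψ ∈ odd (AlgEquiv.restrictNormalHom K c : K ≃ₐ[F] K), g (ψ.comp (AlgEquiv.restrictNormalHom K : (H ≃ₐ[F] H) →* (K ≃ₐ[F] K))) =
    ∏ ψ ∈ Psi (AlgEquiv.restrictNormalHom K : (H ≃ₐ[F] H) →* (K ≃ₐ[F] K)).ker c, g ψ ∧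
  ∀ B : Subgroup (H ≃ₐ[F] H), ∏ ψ ∈ Psi B c, g ψ⁻¹ = ∏ ψ ∈ Psi B c, g ψ

/-- ROW rb:LTR (from INF; L-values of inflations). `chv` of an inflation is the same, so `LE` is the same and `fun ψ => Lf (ψ.comp res)` satisfies `isL` for `K`. -/
def LTR_stmt : Prop := ∀ (F K H : Type) [Field F] [NumberField F] [Field K] [NumberField K] [Field H] [NumberField H]
  [Algebra F K] [Algebra K H] [Algebra F H] [IsScalarTower F K H] [IsAbelianGalois F K] [IsAbelianGalois F H]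
  (Lf : ((H ≃ₐ[F] H) →* ℂˣ) → ℂ → ℂ), isL Lf →
  isL (fun ψ : (K ≃ₐ[F] K) →* ℂˣ => Lf (ψ.comp (AlgEquiv.restrictNormalHom K : (H ≃ₐ[F] H) →* (K ≃ₐ[F] K)))) ∧
  ∀ (S T : Finset (HOS F)) (ψ : (K ≃ₐ[F] K) →* ℂˣ),
    LST (fun ψ : (K ≃ₐ[F] K) →* ℂˣ => Lf (ψ.comp (AlgEquiv.restrictNormalHom K : (H ≃ₐ[F] H) →* (K ≃ₐ[F] K)))) S T ψ =
      LST Lf S T (ψ.comp (AlgEquiv.restrictNormalHom K : (H ≃ₐ[F] H) →* (K ≃ₐ[F] K)))

/-- ROW rb:UNT (from TYP, VLU; unramified primes). If `ty K q = 0` then by TYP `q` has a single prime `P` in `K`, and `ord P x = 2 ord q x` for `x ∈ k`, so `e(P / q) = 2`; but `e(P' / p) = 1` for a prime `P'` of `H` above `P` (`Algebra.isUnramifiedAt_iff_map_eq` or `ramificationIdx_eq_one...`: unramified means that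
`ord P' x = ord p x` for `x ∈ F`, in particular for `x` of order 1 at `p`: `ord P' x` would be divisible by 2, as `ord P' = e' ord P` and `ord P x = 2 ord q x`). -/
def UNT_stmt : Prop := ∀ (F k K H : Type) [Field F] [NumberField F] [Field k] [NumberField k] [Field K] [NumberField K] [Field H] [NumberField H]
  [Algebra F k] [Algebra k K] [Algebra F K] [Algebra K H] [Algebra F H] [IsScalarTower F k K] [IsScalarTower F K H] [IsAbelianGalois F H]
  [Algebra.IsQuadraticExtension k K] (p : HOS F), (∀ P : HOS H, P.under (𝓞 F) = p → Algebra.IsUnramifiedAt (𝓞 F) P.asIdeal) →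
  ∀ q : HOS k, q.under (𝓞 F) = p → ty K q ≠ 0

/-- ROW rb:TCK (from VLU; the condition on roots of unity for `K`). -/
def TCK_stmt : Prop := ∀ (F K H : Type) [Field F] [NumberField F] [Field K] [NumberField K] [Field H] [NumberField H]
  [Algebra F K] [Algebra K H] [Algebra F H] [IsScalarTower F K H] (T : Finset (HOS F)),
  (∀ ζ ∈ Units.torsion H, (∀ P : HOS H, P.under (𝓞 F) ∈ T → P.valuation H (((ζ : (𝓞 H)ˣ) : H) - 1) < 1) → ζ = 1) →
  ∀ ζ ∈ Units.torsion K, (∀ P : HOS K, P.under (𝓞 F) ∈ T → P.valuation K (((ζ : (𝓞 K)ˣ) : K) - 1) < 1) → ζ = 1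

/-- ROW rb:CMP (from PRD, IDX, PSI, LTR, UNT, TCK, VLU; comparison). `W` = the primes of `K` above the `v_j`, `Tk` = the (finite) set of the primes of `k` above `T`. PRD for `K/F` and the functions of LTR; IDX for `W` and `Tk` (`P.under (𝓞 k) ∈ Tk` iff `P.under (𝓞 F) ∈ T`). `∏_{ψ ∈ Psi} ψ(Θ) = ∏_{ψ ∈ Psi} LST ψ⁻¹ = ∏_{ψ ∈ Psi} LST ψ = ∏_{ψ ∈ odd (res c)} LST' ψ` by PSI and LTR.
With `X = 2^t h_k Q w_K ≠ 0`, `I` = the index: PRD: `2^δ X ∏ ψ(Θ) = 2 z 2^{n'} h_K ∏ (N q - ty q)`, IDX: `I z' X = 2 h_K ∏ (N q - ty q)`, so `2^δ ∏ ψ(Θ) = z z' 2^{n'} I`, and `n' = [k : ℚ] = n #Psi`. -/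
def CMP_stmt : Prop := ∀ (F k K H : Type) [Field F] [NumberField F] [Field k] [NumberField k] [Field K] [NumberField K] [Field H] [NumberField H]
  [Algebra F k] [Algebra k K] [Algebra F K] [Algebra K H] [Algebra F H] [IsScalarTower F k K] [IsScalarTower F K H]
  [IsAbelianGalois F k] [IsAbelianGalois F K] [IsAbelianGalois F H] [Algebra.IsQuadraticExtension k K] [IsTotallyReal k] [IsCMField K]
  [IsTotallyReal F] [IsCMField H] (r : ℕ) (D : RData F H r),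
  (∀ x : k, (AlgEquiv.restrictNormalHom K D.c : K ≃ₐ[F] K) (algebraMap k K x) = algebraMap k K x) →
  (AlgEquiv.restrictNormalHom K D.c : K ≃ₐ[F] K) ≠ 1 →
  finrank ℚ k = finrank ℚ F * (Psi (AlgEquiv.restrictNormalHom K : (H ≃ₐ[F] H) →* (K ≃ₐ[F] K)).ker D.c).card →
  ∀ (Lf : ((H ≃ₐ[F] H) →* ℂˣ) → ℂ → ℂ), isL Lf → ∀ Θ : MonoidAlgebra ℚ (H ≃ₐ[F] H), (∀ χ, evQ χ Θ = LST Lf D.S D.T χ⁻¹) →
  dM ((AlgEquiv.restrictNormalHom K D.c : K ≃ₐ[F] K) : K ≃+* K) {P : HOS K | ∃ j, P.under (𝓞 F) = (D.w j).under (𝓞 F)} {P : HOS K | P.under (𝓞 F) ∈ D.T} ≤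
    DV ((AlgEquiv.restrictNormalHom K D.c : K ≃ₐ[F] K) : K ≃+* K) {P : HOS K | ∃ j, P.under (𝓞 F) = (D.w j).under (𝓞 F)} ∧
  (dM ((AlgEquiv.restrictNormalHom K D.c : K ≃ₐ[F] K) : K ≃+* K) {P : HOS K | ∃ j, P.under (𝓞 F) = (D.w j).under (𝓞 F)} {P : HOS K | P.under (𝓞 F) ∈ D.T}).relIndex
    (DV ((AlgEquiv.restrictNormalHom K D.c : K ≃ₐ[F] K) : K ≃+* K) {P : HOS K | ∃ j, P.under (𝓞 F) = (D.w j).under (𝓞 F)}) ≠ 0 ∧
  ∃ z : ℤ, 2 ^ (if D.S = ∅ then 1 else 0) * ∏ ψ ∈ Psi (AlgEquiv.restrictNormalHom K : (H ≃ₐ[F] H) →* (K ≃ₐ[F] K)).ker D.c, evQ ψ Θ =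
    (2 ^ finrank ℚ F) ^ (Psi (AlgEquiv.restrictNormalHom K : (H ≃ₐ[F] H) →* (K ≃ₐ[F] K)).ker D.c).card * (z : ℂ) *
    ((dM ((AlgEquiv.restrictNormalHom K D.c : K ≃ₐ[F] K) : K ≃+* K) {P : HOS K | ∃ j, P.under (𝓞 F) = (D.w j).under (𝓞 F)} {P : HOS K | P.under (𝓞 F) ∈ D.T}).relIndex
      (DV ((AlgEquiv.restrictNormalHom K D.c : K ≃ₐ[F] K) : K ≃+* K) {P : HOS K | ∃ j, P.under (𝓞 F) = (D.w j).under (𝓞 F)}) : ℂ)

/-! ### The final theorem -/

/-- ROW rb:CHF (from ORD, CHI, TWR, CMP, IDM, INJ, ORZ, VLU; one character). `B = ker χ`, tower from TWR, `c' = res c`. Apply CHI with `U = Additive (Ut ...)`, `s g` = the action of `g` on `U` (`Ut` is stable under `G`: `(act σ P).valuation (σ x) = P.valuation x`, ORD, and `(act σ P).under (𝓞 F) = P.under (𝓞 F)`), `M` = the elements of `U`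
of the form `algebraMap K H x` with `x ∈ Ml c' W T'`, `W = {P | ∃ j, P.under = v_j}`, `T' = {P | P.under ∈ T}` (such elements are in `U` by VLU), `β_j = ordZ F (w_j)` (ORZ), `φ_j` = the `ℤ[G]`-valued map with `f_j (ι u) = zq (φ_j u)` (`zq` is injective, so it is additive and equivariant). `M` is stable: `s g` acts on `K` by `res g`, commuting
with `c'`. `β_j(M) ⊂ Elat`: by IDM's ingredients, or directly: `b x = x` for `b ∈ B = ker res`, `c x = x⁻¹`. Injectivity on `M`: INJ. The index: IDM with `N = M.map (pi β)`, not 0 by CMP. On `Wm`: `w ∈ W`, `c w = -w`, `o_j w = 0`: `n w = ι u`, `ι (u c(u)) = 0`, so `u c(u)` is torsion and `= 1` by INJ;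
`zq (ordZ (w_j) u) = n o_j w = 0`, so `u = 1` by INJ, `n w = 0`, `w = 0`. The hypothesis on `∏ evQ ψ (DT o u) = ∏ evQ ψ Θ` is CMP. -/
def CHF_stmt : Prop := ∀ (F H : Type) [Field F] [NumberField F] [Field H] [NumberField H] [Algebra F H] [IsAbelianGalois F H] [IsTotallyReal F] [IsCMField H]
  (r : ℕ) (D : RData F H r) (m : ℕ), Nat.card (H ≃ₐ[F] H) = 2 ^ m →
  ∀ (Lf : ((H ≃ₐ[F] H) →* ℂˣ) → ℂ → ℂ), isL Lf → ∀ Θ : MonoidAlgebra ℚ (H ≃ₐ[F] H), (∀ χ, evQ χ Θ = LST Lf D.S D.T χ⁻¹) →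
  ∀ (W : Type) [AddCommGroup W] [Module (MonoidAlgebra ℚ (H ≃ₐ[F] H)) W]
    (ι : Additive (Ut F H (D.T : Set (HOS F)) (Set.range D.v)) →+ W), isQU (F := F) (Ut F H (D.T : Set (HOS F)) (Set.range D.v)) ι →
  ∀ o : Fin r → W →ₗ[MonoidAlgebra ℚ (H ≃ₐ[F] H)] MonoidAlgebra ℚ (H ≃ₐ[F] H),
    (∀ j (x : Ut F H (D.T : Set (HOS F)) (Set.range D.v)), o j (ι (Additive.ofMul x)) = zq (ordZ F (D.w j) ((x : Hˣ) : H))) →
  ∀ u : ⋀[MonoidAlgebra ℚ (H ≃ₐ[F] H)]^r (Wm D.c W), DT (fun j => (o j).comp (Wm D.c W).subtype) u = Θ →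
  ∀ f : Fin r → W →ₗ[MonoidAlgebra ℚ (H ≃ₐ[F] H)] MonoidAlgebra ℚ (H ≃ₐ[F] H),
    (∀ i x, ∃ y : MonoidAlgebra ℤ (H ≃ₐ[F] H), f i (ι x) = zq y) →
  ∀ χ : (H ≃ₐ[F] H) →* ℂˣ, χ D.c = -1 →
  ∃ d : ℕ, Odd d ∧ IsIntegral ℤ ((d : ℂ) *
    (2 ^ (if D.S = ∅ then 1 else 0) * evQ χ (DT (fun j => (f j).comp (Wm D.c W).subtype) u) / 2 ^ finrank ℚ F))

/-- ROW rb:UNI (a uniform denominator). `u` is a sum of elements `a • (w_1 ∧ ... ∧ w_r)`, `a ∈ ℚ[G]`, `w_i ∈ N ≤ W`; `n_i w_i ∈ ι(U)`, so `f_j(n_i w_i) ∈ zq (ℤ[G])`, and `a` has a denominator. -/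
def UNI_stmt : Prop := ∀ (G : Type) [CommGroup G] [Finite G] (U : Type) [AddCommGroup U] (W : Type) [AddCommGroup W] [Module (MonoidAlgebra ℚ G) W]
  (ι : U →+ W), (∀ w : W, ∃ (n : ℕ) (x : U), n ≠ 0 ∧ n • w = ι x) → ∀ (N : Submodule (MonoidAlgebra ℚ G) W) (r : ℕ) (u : ⋀[MonoidAlgebra ℚ G]^r N),
  ∃ n : ℕ, n ≠ 0 ∧ ∀ f : Fin r → W →ₗ[MonoidAlgebra ℚ G] MonoidAlgebra ℚ G, (∀ i x, ∃ y : MonoidAlgebra ℤ G, f i (ι x) = zq y) →
    ∃ y : MonoidAlgebra ℤ G, n • DT (fun j => (f j).comp N.subtype) u = zq y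

/-- ROW rb:ANT (the minus part). For `r ≥ 1`: `c (w_1 ∧ ... ∧ w_r) = (c w_1) ∧ ... ∧ w_r = -(w_1 ∧ ... ∧ w_r)`, so `c u = -u` for all `u` in the exterior power of `Wm c W`, and `DT f` is linear. -/
def ANT_stmt : Prop := ∀ (G : Type) [CommGroup G] [Finite G] (c : G) (W : Type) [AddCommGroup W] [Module (MonoidAlgebra ℚ G) W]
  (r : ℕ), 1 ≤ r → ∀ (f : Fin r → W →ₗ[MonoidAlgebra ℚ G] MonoidAlgebra ℚ G) (u : ⋀[MonoidAlgebra ℚ G]^r (Wm c W)),
  MonoidAlgebra.single c 1 * DT (fun j => (f j).comp (Wm c W).subtype) u = - DT (fun j => (f j).comp (Wm c W).subtype) u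

/-- ROW rb:RUB (from CHF, COE, UNI, ANT; the theorem). `k = m + δ - (h + n)`. For every `f`: COE with CHF and ANT gives an odd `d_f` with `d_f 2^k q ∈ ℤ` for all coefficients `q` of `DT f u`. UNI gives `n ≠ 0`, independent of `f`, with `n q ∈ ℤ`. Let `d` be the odd part of `n`; `gcd (n, d_f)` divides `d`,
so `d 2^k q ∈ ℤ`. (`c² = 1`, `c ≠ 1`: `IsCMField.complexConj_apply_apply`, `complexConj_ne_one`.) -/
def RUB_stmt : Prop := ∀ (F H : Type) [Field F] [NumberField F] [Field H] [NumberField H] [Algebra F H] [IsAbelianGalois F H] [IsTotallyReal F] [IsCMField H]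
  (r : ℕ), 1 ≤ r → ∀ (D : RData F H r) (m h : ℕ) (g₀ : H ≃ₐ[F] H), Nat.card (H ≃ₐ[F] H) = 2 ^ m → g₀ ^ 2 ^ h = D.c →
  ∀ (Lf : ((H ≃ₐ[F] H) →* ℂˣ) → ℂ → ℂ), isL Lf → ∀ Θ : MonoidAlgebra ℚ (H ≃ₐ[F] H), (∀ χ, evQ χ Θ = LST Lf D.S D.T χ⁻¹) →
  ∀ (W : Type) [AddCommGroup W] [Module (MonoidAlgebra ℚ (H ≃ₐ[F] H)) W]
    (ι : Additive (Ut F H (D.T : Set (HOS F)) (Set.range D.v)) →+ W), isQU (F := F) (Ut F H (D.T : Set (HOS F)) (Set.range D.v)) ι →
  ∀ o : Fin r → W →ₗ[MonoidAlgebra ℚ (H ≃ₐ[F] H)] MonoidAlgebra ℚ (H ≃ₐ[F] H),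
    (∀ j (x : Ut F H (D.T : Set (HOS F)) (Set.range D.v)), o j (ι (Additive.ofMul x)) = zq (ordZ F (D.w j) ((x : Hˣ) : H))) →
  ∀ u : ⋀[MonoidAlgebra ℚ (H ≃ₐ[F] H)]^r (Wm D.c W), DT (fun j => (o j).comp (Wm D.c W).subtype) u = Θ →
  ∃ d : ℕ, Odd d ∧ (d * 2 ^ (m + (if D.S = ∅ then 1 else 0) - (h + finrank ℚ F))) • u ∈ RL D.c W ι r

end Pool.Agent.RB
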